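import Mathlib

/-!
# Closed subconfigurations of finite projective planes
-/

set_option autoImplicit false

namespace Pool.Agent.P8H40.Geo

open Configuration Nondegenerate
open HasPoints (mkPoint mkPoint_ax)
open HasLines (mkLine mkLine_ax)

variable {P L : Type*} [Membership P L] [ProjectivePlane P L]

theorem line_unique {p q : P} {l m : L} (hpq : p ≠ q) (h1 : p ∈ l) (h2 : q ∈ l) (h3 : p ∈ m)
    (h4 : q ∈ m) : l = m :=
  (eq_or_eq h1 h2 h3 h4).resolve_left hpq

theorem point_unique {p q : P} {l m : L} (hlm : l ≠ m) (h1 : p ∈ l) (h2 : q ∈ l) (h3 : p ∈ m)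
    (h4 : q ∈ m) : p = q :=
  (eq_or_eq h1 h2 h3 h4).resolve_right hlm

/-- Every line has two points. -/
theorem exists_two_points (l : L) : ∃ p q : P, p ≠ q ∧ p ∈ l ∧ q ∈ l := by
  obtain ⟨p₁, p₂, p₃, l₁, l₂, l₃, h₁₂, h₁₃, h₂₁, h₂₂, h₂₃, h₃₁, h₃₂, h₃₃⟩ :=
    @ProjectivePlane.exists_config P L _ _
  have h12 : l₁ ≠ l₂ := by rintro rfl; exact h₂₁ h₂₂
  have h13 : l₁ ≠ l₃ := by rintro rfl; exact h₂₁ h₂₃
  have h23 : l₂ ≠ l₃ := by rintro rfl; exact h₃₃ h₃₂
  have hp23 : p₂ ≠ p₃ := by rintro rfl; exact h₃₃ h₂₃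
  by_cases e2 : l = l₂
  · subst e2; exact ⟨p₂, p₃, hp23, h₂₂, h₃₂⟩
  by_cases e3 : l = l₃
  · subst e3
    refine ⟨p₂, mkPoint h13, ?_, h₂₃, (mkPoint_ax h13).2⟩
    intro h
    exact h₂₁ (h ▸ (mkPoint_ax h13).1)
  by_cases h2l : p₂ ∈ l
  · have e1 : l ≠ l₁ := by rintro rfl; exact h₂₁ h2l
    refine ⟨p₂, mkPoint e1, ?_, h2l, (mkPoint_ax e1).1⟩
    intro h
    exact h₂₁ (h ▸ (mkPoint_ax e1).2)
  · refine ⟨mkPoint e2, mkPoint e3, ?_, (mkPoint_ax e2).1, (mkPoint_ax e3).1⟩
    intro h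
    have h4 : (mkPoint e2 : P) ∈ l₃ := h ▸ (mkPoint_ax e3).2
    have h5 : (mkPoint e2 : P) = p₂ := point_unique h23 (mkPoint_ax e2).2 h₂₂ h4 h₂₃
    exact h2l (h5 ▸ (mkPoint_ax e2).1)

variable (P L) in
theorem finite_lines [Finite P] : Finite L := by
  have : Function.Injective (fun l : L => ((exists_two_points (P := P) l).choose,
      (exists_two_points (P := P) l).choose_spec.choose)) := by
    intro l m h
    have hl := (exists_two_points (P := P) l).choose_spec.choose_spec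
    have hm := (exists_two_points (P := P) m).choose_spec.choose_spec
    simp only [Prod.mk.injEq] at h
    refine line_unique hl.1 hl.2.1 hl.2.2 ?_ ?_
    · rw [h.1]; exact hm.2.1
    · rw [h.2]; exact hm.2.2
  exact Finite.of_injective _ this

/-- Counting in a closed subconfiguration that contains a quadrangle. -/
theorem subplane_counts [Finite P] [Finite L] (S : Set P) (T : Set L)
    (hST : ∀ p ∈ S, ∀ q ∈ S, ∀ l : L, p ≠ q → p ∈ l → q ∈ l → l ∈ T)
    (hTS : ∀ l ∈ T, ∀ m ∈ T, ∀ p : P, l ≠ m → p ∈ l → p ∈ m → p ∈ S)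
    (a b c d : P) (ha : a ∈ S) (hb : b ∈ S) (hc : c ∈ S) (hd : d ∈ S)
    (hab : a ≠ b) (hac : a ≠ c) (hbc : b ≠ c) (hcd : c ≠ d)
    (habc : ∀ l : L, a ∈ l → b ∈ l → c ∈ l → False)
    (habd : ∀ l : L, a ∈ l → b ∈ l → d ∈ l → False)
    (hacd : ∀ l : L, a ∈ l → c ∈ l → d ∈ l → False)
    (hbcd : ∀ l : L, b ∈ l → c ∈ l → d ∈ l → False) :
    ∃ m : ℕ, Nat.card S = m ^ 2 + m + 1 ∧ Nat.card T = m ^ 2 + m + 1 ∧
      (∀ l ∈ T, Nat.card {p : P // p ∈ S ∧ p ∈ l} = m + 1) ∧
      (∀ p ∈ S, Nat.card {l : L // l ∈ T ∧ p ∈ l} = m + 1) := by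
  classical
  letI iM : Membership S T := ⟨fun l p => (p : P) ∈ (l : L)⟩
  have hmem : ∀ (p : S) (l : T), p ∈ l ↔ (p : P) ∈ (l : L) := fun p l => Iff.rfl
  have hLT : ∀ {p q : P} (hp : p ∈ S) (hq : q ∈ S) (h : p ≠ q), (mkLine h : L) ∈ T :=
    fun hp hq h => hST _ hp _ hq _ h (mkLine_ax h).1 (mkLine_ax h).2
  have hPS : ∀ {l m : L} (hl : l ∈ T) (hm : m ∈ T) (h : l ≠ m), (mkPoint h : P) ∈ S :=
    fun hl hm h => hTS _ hl _ hm _ h (mkPoint_ax h).1 (mkPoint_ax h).2
  have hne1 : ∀ {p q : S}, p ≠ q → (p : P) ≠ q := fun h => by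
    simpa [Subtype.ext_iff] using h
  have hne2 : ∀ {p q : T}, p ≠ q → (p : L) ≠ q := fun h => by
    simpa [Subtype.ext_iff] using h
  letI iP : ProjectivePlane S T :=
    { exists_point := by
        intro l
        by_cases h1 : a ∈ (l : L)
        · by_cases h2 : b ∈ (l : L)
          · exact ⟨⟨c, hc⟩, fun h3 => habc l h1 h2 h3⟩
          · exact ⟨⟨b, hb⟩, h2⟩
        · exact ⟨⟨a, ha⟩, h1⟩
      exists_line := by
        intro p
        by_cases h1 : (p : P) ∈ (mkLine hab : L)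
        · by_cases h2 : (p : P) ∈ (mkLine hac : L)
          · refine ⟨⟨mkLine hbc, hLT hb hc hbc⟩, ?_⟩
            intro h3
            have h3' : (p : P) ∈ (mkLine hbc : L) := h3
            have hne : (mkLine hab : L) ≠ mkLine hac := by
              intro h
              exact habc _ (mkLine_ax hab).1 (mkLine_ax hab).2 (h ▸ (mkLine_ax hac).2)
            have h4 : (p : P) = a := point_unique hne h1 (mkLine_ax hab).1 h2 (mkLine_ax hac).1
            rw [h4] at h3'
            exact habc _ h3' (mkLine_ax hbc).1 (mkLine_ax hbc).2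
          · exact ⟨⟨mkLine hac, hLT ha hc hac⟩, h2⟩
        · exact ⟨⟨mkLine hab, hLT ha hb hab⟩, h1⟩
      eq_or_eq := by
        intro p₁ p₂ l₁ l₂ h1 h2 h3 h4
        rcases eq_or_eq (P := P) (L := L) (p₁ := p₁.1) (p₂ := p₂.1) (l₁ := l₁.1) (l₂ := l₂.1)
          h1 h2 h3 h4 with h | h
        · exact Or.inl (Subtype.ext h)
        · exact Or.inr (Subtype.ext h)
      mkPoint := fun {l₁ l₂} h => ⟨mkPoint (hne2 h), hPS l₁.2 l₂.2 (hne2 h)⟩
      mkPoint_ax := fun {l₁ l₂} h => mkPoint_ax (hne2 h)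
      mkLine := fun {p₁ p₂} h => ⟨mkLine (hne1 h), hLT p₁.2 p₂.2 (hne1 h)⟩
      mkLine_ax := fun {p₁ p₂} h => mkLine_ax (hne1 h)
      exists_config := by
        refine ⟨⟨d, hd⟩, ⟨a, ha⟩, ⟨b, hb⟩, ⟨mkLine hcd, hLT hc hd hcd⟩,
          ⟨mkLine hab, hLT ha hb hab⟩, ⟨mkLine hac, hLT ha hc hac⟩, ?_, ?_, ?_, ?_, ?_, ?_, ?_, ?_⟩
        · intro h; exact habd _ (mkLine_ax hab).1 (mkLine_ax hab).2 h
        · intro h; exact hacd _ (mkLine_ax hac).1 (mkLine_ax hac).2 h
        · intro h; exact hacd _ h (mkLine_ax hcd).1 (mkLine_ax hcd).2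
        · exact (mkLine_ax hab).1
        · exact (mkLine_ax hac).1
        · intro h; exact hbcd _ h (mkLine_ax hcd).1 (mkLine_ax hcd).2
        · exact (mkLine_ax hab).2
        · intro h; exact habc _ (mkLine_ax hac).1 h (mkLine_ax hac).2 }
  haveI := Fintype.ofFinite S
  haveI := Fintype.ofFinite T
  refine ⟨ProjectivePlane.order S T, ?_, ?_, ?_, ?_⟩
  · rw [Nat.card_eq_fintype_card]; exact ProjectivePlane.card_points S T
  · rw [Nat.card_eq_fintype_card]; exact ProjectivePlane.card_lines S T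
  · intro l hl
    have h := ProjectivePlane.pointCount_eq S (⟨l, hl⟩ : T)
    rw [← h, pointCount]
    exact Nat.card_congr
      { toFun := fun p => ⟨⟨p.1, p.2.1⟩, p.2.2⟩
        invFun := fun p => ⟨p.1.1, p.1.2, p.2⟩
        left_inv := fun p => rfl
        right_inv := fun p => rfl }
  · intro p hp
    have h := ProjectivePlane.lineCount_eq T (⟨p, hp⟩ : S)
    rw [← h, lineCount]
    exact Nat.card_congr
      { toFun := fun p => ⟨⟨p.1, p.2.1⟩, p.2.2⟩
        invFun := fun p => ⟨p.1.1, p.1.2, p.2⟩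
        left_inv := fun p => rfl
        right_inv := fun p => rfl }

/-- A proper closed subconfiguration with the counts of a projective plane of order `m` has
`m ^ 2` at most the order of the plane. -/
theorem sq_le_order [Finite P] [Finite L] (S : Set P) (T : Set L)
    (hST : ∀ p ∈ S, ∀ q ∈ S, ∀ l : L, p ≠ q → p ∈ l → q ∈ l → l ∈ T)
    (hTS : ∀ l ∈ T, ∀ m ∈ T, ∀ p : P, l ≠ m → p ∈ l → p ∈ m → p ∈ S) (m : ℕ)
    (hS : Nat.card S = m ^ 2 + m + 1) (hT : Nat.card T = m ^ 2 + m + 1)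
    (hl : ∀ l ∈ T, Nat.card {p : P // p ∈ S ∧ p ∈ l} = m + 1) (hne : S ≠ Set.univ) :
    m ^ 2 ≤ ProjectivePlane.order P L := by
  classical
  set n := ProjectivePlane.order P L with hn
  have : Nonempty T := by
    have : 0 < Nat.card T := by rw [hT]; positivity
    exact (Nat.card_pos_iff.1 this).1
  obtain ⟨l, hlT⟩ := this
  have hle : m + 1 ≤ n + 1 := by
    rw [← hl l hlT, hn, ← ProjectivePlane.pointCount_eq P l, pointCount]
    exact Nat.card_le_card_of_injective (fun p => (⟨p.1, p.2.2⟩ : {p : P // p ∈ l}))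
      (fun p q h => Subtype.ext (by simpa using h))
  have hlt : m < n := by
    rcases Nat.lt_or_ge m n with h | h
    · exact h
    · exfalso
      have hmn : m = n := by omega
      apply hne
      haveI := Fintype.ofFinite P
      have h1 : Nat.card S = Nat.card P := by
        rw [hS, Nat.card_eq_fintype_card, ProjectivePlane.card_points P L, hmn]
      exact (Set.eq_univ_iff_ncard S).2 (by rw [← Nat.card_coe_set_eq, h1])
  -- a point of `l` outside `S`
  obtain ⟨y, hyl, hyS⟩ : ∃ y : P, y ∈ l ∧ y ∉ S := by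
    by_contra hcon
    push Not at hcon
    have h1 : Nat.card {p : P // p ∈ S ∧ p ∈ l} = Nat.card {p : P // p ∈ l} :=
      Nat.card_congr
        { toFun := fun p => ⟨p.1, p.2.2⟩
          invFun := fun p => ⟨p.1, hcon p.1 p.2, p.2⟩
          left_inv := fun p => rfl
          right_inv := fun p => rfl }
    rw [hl l hlT] at h1
    have h2 := ProjectivePlane.pointCount_eq P l
    rw [pointCount] at h2
    omega
  -- points of `S` off `l` inject into the lines through `y` other than `l`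
  have hyz : ∀ z : {p : P // p ∈ S ∧ p ∉ l}, y ≠ z.1 := by
    rintro ⟨z, hz⟩ rfl
    exact hyS hz.1
  have hinj : Function.Injective (fun z : {p : P // p ∈ S ∧ p ∉ l} =>
      (⟨mkLine (hyz z), (mkLine_ax (hyz z)).1, by
        intro h
        have h' := (mkLine_ax (P := P) (L := L) (hyz z)).2
        rw [h] at h'
        exact z.2.2 h'⟩ : {k : L // y ∈ k ∧ k ≠ l})) := by
    intro z w h
    by_contra hzw
    have hzw' : z.1 ≠ w.1 := fun h => hzw (Subtype.ext h)
    have h1 : (mkLine (hyz z) : L) = mkLine (hyz w) := by simpa using h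
    have h2 : w.1 ∈ (mkLine (hyz z) : L) := by
      rw [h1]; exact (mkLine_ax (hyz w)).2
    have h3 : (mkLine (hyz z) : L) ∈ T :=
      hST z.1 z.2.1 w.1 w.2.1 _ hzw' (mkLine_ax (hyz z)).2 h2
    have h4 : (mkLine (hyz z) : L) ≠ l := by
      intro h5
      have h' := (mkLine_ax (P := P) (L := L) (hyz z)).2
      rw [h5] at h'
      exact z.2.2 h'
    exact hyS (hTS _ h3 _ hlT y h4 (mkLine_ax (hyz z)).1 hyl)
  have h1 := Nat.card_le_card_of_injective _ hinj
  have h2 : Nat.card {p : P // p ∈ S ∧ p ∉ l} + Nat.card {p : P // p ∈ S ∧ p ∈ l} =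
      Nat.card S := by
    haveI := Fintype.ofFinite P
    rw [Nat.card_eq_fintype_card, Nat.card_eq_fintype_card, Fintype.card_subtype,
      Fintype.card_subtype, Nat.card_eq_fintype_card, ← Set.toFinset_card]
    rw [add_comm, ← Finset.card_union_of_disjoint]
    · congr 1
      ext p
      simp only [Finset.mem_union, Finset.mem_filter, Finset.mem_univ, true_and,
        Set.mem_toFinset]
      tauto
    · rw [Finset.disjoint_left]
      intro p hp hp2
      simp only [Finset.mem_filter, Finset.mem_univ, true_and] at hp hp2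
      exact hp2.2 hp.2
  have h3 : Nat.card {k : L // y ∈ k ∧ k ≠ l} + 1 = n + 1 := by
    have h4 := ProjectivePlane.lineCount_eq L y
    rw [lineCount] at h4
    rw [← h4]
    haveI := Fintype.ofFinite L
    rw [Nat.card_eq_fintype_card, Nat.card_eq_fintype_card, Fintype.card_subtype,
      Fintype.card_subtype]
    have h5 : Finset.univ.filter (fun k : L => y ∈ k ∧ k ≠ l) =
        (Finset.univ.filter (fun k : L => y ∈ k)).erase l := by
      ext k
      simp only [Finset.mem_filter, Finset.mem_univ, true_and, Finset.mem_erase]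
      tauto
    rw [h5, Finset.card_erase_of_mem (by simpa using hyl)]
    have h6 : 0 < (Finset.univ.filter (fun k : L => y ∈ k)).card :=
      Finset.card_pos.2 ⟨l, by simpa using hyl⟩
    omega
  rw [hl l hlT, hS] at h2
  omega

/-- A point set of size at least four which is not contained, up to one point, in a line,
contains a quadrangle. -/
theorem exists_quadrangle [Finite P] (O : Set P) (h4 : 4 ≤ O.ncard)
    (hnl : ∀ l : L, ∃ p ∈ O, p ∉ l)
    (hn1 : ∀ l : L, ∀ c ∈ O, ∃ p ∈ O, p ≠ c ∧ p ∉ l) :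
    ∃ a b c d : P, a ∈ O ∧ b ∈ O ∧ c ∈ O ∧ d ∈ O ∧ a ≠ b ∧ a ≠ c ∧ b ≠ c ∧ c ≠ d ∧
      (∀ l : L, a ∈ l → b ∈ l → c ∈ l → False) ∧
      (∀ l : L, a ∈ l → b ∈ l → d ∈ l → False) ∧
      (∀ l : L, a ∈ l → c ∈ l → d ∈ l → False) ∧
      (∀ l : L, b ∈ l → c ∈ l → d ∈ l → False) := by
  classical
  by_cases hcase : ∃ l : L, 3 ≤ (O ∩ {p | p ∈ l}).ncard
  · obtain ⟨l, hl⟩ := hcase
    obtain ⟨c, hc, hcl⟩ := hnl l
    obtain ⟨d, hd, hdc, hdl⟩ := hn1 l c hc
    obtain ⟨m, ⟨hcm, hdm⟩, -⟩ := HasLines.existsUnique_line P L c d hdc.symm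
    have hlm : l ≠ m := by rintro rfl; exact hcl hcm
    -- at most one point of `l` lies on `m`
    have h2 : 2 ≤ ((O ∩ {p | p ∈ l}) \ {p | p ∈ m}).ncard := by
      have h3 : ((O ∩ {p | p ∈ l}) ∩ {p | p ∈ m}).ncard ≤ 1 := by
        rw [Set.ncard_le_one (Set.toFinite _)]
        intro a ha b hb
        exact point_unique hlm ha.1.2 hb.1.2 ha.2 hb.2
      have h5 := Set.ncard_inter_add_ncard_sdiff_eq_ncard (O ∩ {p | p ∈ l}) {p | p ∈ m}
        (Set.toFinite _)
      omega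
    obtain ⟨a, b, ha, hb, hab⟩ := (Set.one_lt_ncard_iff (Set.toFinite _)).1 h2
    have hac : a ≠ c := by rintro rfl; exact hcl ha.1.2
    have hbc : b ≠ c := by rintro rfl; exact hcl hb.1.2
    refine ⟨a, b, c, d, ha.1.1, hb.1.1, hc, hd, hab, hac, hbc, hdc.symm, ?_, ?_, ?_, ?_⟩
    · intro k h1 h2 h3
      have : k = l := line_unique hab h1 h2 ha.1.2 hb.1.2
      exact hcl (this ▸ h3)
    · intro k h1 h2 h3
      have : k = l := line_unique hab h1 h2 ha.1.2 hb.1.2
      exact hdl (this ▸ h3)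
    · intro k h1 h2 h3
      have : k = m := line_unique hdc.symm h2 h3 hcm hdm
      exact ha.2 (this ▸ h1)
    · intro k h1 h2 h3
      have : k = m := line_unique hdc.symm h2 h3 hcm hdm
      exact hb.2 (this ▸ h1)
  · push Not at hcase
    obtain ⟨s, hsO, hs⟩ := Set.exists_subset_card_eq h4
    have hsf : s.Finite := Set.toFinite s
    obtain ⟨a, b, c, d, hab, hac, had, hbc, hbd, hcd, hs4⟩ :
        ∃ a b c d : P, a ≠ b ∧ a ≠ c ∧ a ≠ d ∧ b ≠ c ∧ b ≠ d ∧ c ≠ d ∧ s = {a, b, c, d} := by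
      have h6 := Set.ncard_eq_toFinset_card s hsf
      rw [hs] at h6
      obtain ⟨a, b, c, d, h⟩ := Finset.card_eq_four.1 h6.symm
      refine ⟨a, b, c, d, h.1, h.2.1, h.2.2.1, h.2.2.2.1, h.2.2.2.2.1, h.2.2.2.2.2.1, ?_⟩
      rw [← hsf.coe_toFinset, h.2.2.2.2.2.2]
      simp
    have ha : a ∈ O := hsO (by rw [hs4]; simp)
    have hb : b ∈ O := hsO (by rw [hs4]; simp)
    have hc : c ∈ O := hsO (by rw [hs4]; simp)
    have hd : d ∈ O := hsO (by rw [hs4]; simp)
    have key : ∀ x y z : P, x ∈ O → y ∈ O → z ∈ O → x ≠ y → x ≠ z → y ≠ z →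
        ∀ l : L, x ∈ l → y ∈ l → z ∈ l → False := by
      intro x y z hx hy hz hxy hxz hyz l h1 h2 h3
      have h7 : ({x, y, z} : Set P) ⊆ O ∩ {p | p ∈ l} := by
        intro w hw
        simp only [Set.mem_insert_iff, Set.mem_singleton_iff] at hw
        rcases hw with rfl | rfl | rfl
        · exact ⟨hx, h1⟩
        · exact ⟨hy, h2⟩
        · exact ⟨hz, h3⟩
      have h8 := Set.ncard_le_ncard h7 (Set.toFinite _)
      have h9 : ({x, y, z} : Set P).ncard = 3 := by
        rw [Set.ncard_eq_three]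
        exact ⟨x, y, z, hxy, hxz, hyz, rfl⟩
      have := hcase l
      omega
    exact ⟨a, b, c, d, ha, hb, hc, hd, hab, hac, hbc, hcd, key a b c ha hb hc hab hac hbc,
      key a b d ha hb hd hab had hbd, key a c d ha hc hd hac had hcd,
      key b c d hb hc hd hbc hbd hcd⟩

end Pool.Agent.P8H40.Geo
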