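import Mathlib
import Pool.Agent.P8H40.SubPlane

/-!
# Structure of a type (h) group
-/

set_option autoImplicit false

namespace Pool.Agent.P8H40.Geo

open Configuration MulAction

/-- The hypotheses of type (h). -/
structure TypeH (P L G : Type) [Membership P L] [ProjectivePlane P L] [Finite P] [Group G]
    [Finite G] [MulAction G P] [MulAction G L] (k : ℕ) : Prop where
  hord : ProjectivePlane.order P L = k ^ 2
  hfaith : FaithfulSMul G P
  hinc : ∀ (g : G) (p : P) (l : L), p ∈ l ↔ g • p ∈ g • l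
  hqP : ∀ (g : G) (p q : P), q ∈ MulAction.orbit G p → g • p = p → g • q = q
  hbig : 2 * Nat.card G > (k ^ 2) ^ 2 + k ^ 2 + 1
  hG : Nat.card G = (k ^ 2 - k + 1) ^ 2
  hOrb : Nat.card (MulAction.orbitRel.Quotient G P) = 2 * k + 1
  hfixP : ¬ ∃ p : P, ∀ g : G, g • p = p
  hfixL : ¬ ∃ l : L, ∀ g : G, g • l = l

variable {P L G : Type} [Membership P L] [ProjectivePlane P L] [Finite P] [Finite L] [Group G]
  [Finite G] [MulAction G P] [MulAction G L] {k : ℕ}

namespace TypeH

variable (X : TypeH P L G k)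
include X

theorem hk : 3 ≤ k := by
  have h1 := ProjectivePlane.one_lt_order P L
  have h2 := X.hbig
  rw [X.hG] at h2
  rw [X.hord] at h1
  by_contra h3
  push Not at h3
  interval_cases k <;> simp at h1 h2

theorem hq1 : k ^ 2 - k + 1 + k = k ^ 2 + 1 := by
  have : k ≤ k ^ 2 := by have := X.hk; nlinarith
  omega

theorem hq7 : 7 ≤ k ^ 2 - k + 1 := by
  have h1 := X.hk
  have h2 := X.hq1
  nlinarith

theorem card_P : Nat.card P = (k ^ 2 + k + 1) * (k ^ 2 - k + 1) := by
  have : Fintype P := Fintype.ofFinite P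
  rw [Nat.card_eq_fintype_card, ProjectivePlane.card_points P L, X.hord]
  have h : k ≤ k ^ 2 := by have := X.hk; nlinarith
  zify [h]
  ring

theorem card_L : Nat.card L = (k ^ 2 + k + 1) * (k ^ 2 - k + 1) := by
  have : Fintype L := Fintype.ofFinite L
  rw [Nat.card_eq_fintype_card, ProjectivePlane.card_lines P L, X.hord]
  have h : k ≤ k ^ 2 := by have := X.hk; nlinarith
  zify [h]
  ring

theorem two_q_gt : k ^ 2 + k + 1 < 2 * (k ^ 2 - k + 1) := by
  have h1 := X.hk
  have h2 := X.hq1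
  nlinarith

theorem odd_q : ¬ 2 ∣ k ^ 2 - k + 1 := by
  have h2 : 2 ∣ k ^ 2 - k := by
    have : k ^ 2 - k = k * (k - 1) := by
      rw [sq, Nat.mul_sub, mul_one]
    rw [this]
    exact (Nat.even_mul_pred_self k).two_dvd
  omega

theorem join_fixed (g : G) : ∀ p ∈ fixedBy P g, ∀ q ∈ fixedBy P g, ∀ l : L, p ≠ q → p ∈ l →
    q ∈ l → l ∈ fixedBy L g := by
  intro p hp q hq l hpq hpl hql
  rw [mem_fixedBy] at hp hq ⊢
  have h1 := (X.hinc g p l).1 hpl
  have h2 := (X.hinc g q l).1 hql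
  rw [hp] at h1
  rw [hq] at h2
  exact line_unique hpq h1 h2 hpl hql

theorem meet_fixed (g : G) : ∀ l ∈ fixedBy L g, ∀ m ∈ fixedBy L g, ∀ p : P, l ≠ m → p ∈ l →
    p ∈ m → p ∈ fixedBy P g := by
  intro l hl m hm p hlm hpl hpm
  rw [mem_fixedBy] at hl hm ⊢
  have h1 := (X.hinc g p l).1 hpl
  have h2 := (X.hinc g p m).1 hpm
  rw [hl] at h1
  rw [hm] at h2
  exact point_unique hlm h1 hpl h2 hpm

theorem orbit_not_collinear (x : P) (h4 : 4 ≤ (orbit G x).ncard) (l : L) :
    ∃ p ∈ orbit G x, p ∉ l := by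
  by_contra hcon
  push Not at hcon
  apply X.hfixL
  refine ⟨l, fun g => ?_⟩
  obtain ⟨a, b, ha, hb, hab⟩ := (Set.one_lt_ncard_iff (Set.toFinite _)).1
    (by omega : 1 < (orbit G x).ncard)
  have h1 : ∀ a ∈ orbit G x, a ∈ g • l := by
    intro a ha
    have h2 : g⁻¹ • a ∈ orbit G x := (mem_orbit_smul g⁻¹ a).elim
      (fun c hc => by
        obtain ⟨d, hd⟩ := ha
        refine ⟨g⁻¹ * d, ?_⟩
        simp only [mul_smul]
        rw [show d • x = a from hd])
    have h3 := (X.hinc g _ l).1 (hcon _ h2)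
    rwa [smul_inv_smul] at h3
  exact line_unique hab (h1 a ha) (h1 b hb) (hcon a ha) (hcon b hb)

theorem smul_mem_orbit' (g : G) {x a : P} (ha : a ∈ orbit G x) : g • a ∈ orbit G x := by
  obtain ⟨d, hd⟩ := ha
  exact ⟨g * d, by simp only [mul_smul]; rw [show d • x = a from hd]⟩

theorem orbit_not_almost_collinear (x : P) (h4 : 4 ≤ (orbit G x).ncard) (l : L) (c : P)
    (hc : c ∈ orbit G x) : ∃ p ∈ orbit G x, p ≠ c ∧ p ∉ l := by
  by_contra hcon
  push Not at hcon
  obtain ⟨g, hg⟩ : ∃ g : G, g • c ≠ c := by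
    by_contra h
    push Not at h
    exact X.hfixP ⟨c, h⟩
  have hgl : ∀ p ∈ orbit G x, p ≠ g • c → p ∈ g • l := by
    intro p hp hpc
    have h2 : g⁻¹ • p ∈ orbit G x := X.smul_mem_orbit' g⁻¹ hp
    have h3 : g⁻¹ • p ≠ c := by
      intro h
      apply hpc
      rw [← h, smul_inv_smul]
    have h4 := (X.hinc g _ l).1 (hcon _ h2 h3)
    rwa [smul_inv_smul] at h4
  have h2 : 2 ≤ (orbit G x \ {c, g • c}).ncard := by
    have h3 : ({c, g • c} : Set P).ncard ≤ 2 := by
      have := Set.ncard_insert_le c {g • c}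
      rw [Set.ncard_singleton] at this
      exact this
    have h5 := Set.le_ncard_sdiff {c, g • c} (orbit G x)
    omega
  obtain ⟨a, b, ha, hb, hab⟩ := (Set.one_lt_ncard_iff (Set.toFinite _)).1 h2
  simp only [Set.mem_sdiff, Set.mem_insert_iff, Set.mem_singleton_iff, not_or] at ha hb
  have hll : g • l = l := line_unique hab (hgl a ha.1 ha.2.2) (hgl b hb.1 hb.2.2)
    (hcon a ha.1 ha.2.1) (hcon b hb.1 hb.2.1)
  have hcl : c ∈ l := by
    rw [← hll]
    exact hgl c hc (Ne.symm hg)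
  obtain ⟨p, hp, hpl⟩ := X.orbit_not_collinear x h4 l
  by_cases hpc : p = c
  · exact hpl (hpc ▸ hcl)
  · exact hpl (hcon p hp hpc)

theorem fix_counts (g : G) (hg : g ≠ 1) (x : P) (hx : g • x = x)
    (h4 : 4 ≤ (orbit G x).ncard) :
    ∃ m : ℕ, Nat.card (fixedBy P g) = m ^ 2 + m + 1 ∧ Nat.card (fixedBy L g) = m ^ 2 + m + 1 ∧
      (∀ l ∈ fixedBy L g, Nat.card {p : P // p ∈ fixedBy P g ∧ p ∈ l} = m + 1) ∧
      (∀ p ∈ fixedBy P g, Nat.card {l : L // l ∈ fixedBy L g ∧ p ∈ l} = m + 1) ∧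
      m ^ 2 ≤ k ^ 2 := by
  have hO : orbit G x ⊆ fixedBy P g := fun y hy => X.hqP g x y hy hx
  obtain ⟨a, b, c, d, ha, hb, hc, hd, hab, hac, hbc, hcd, habc, habd, hacd, hbcd⟩ :=
    exists_quadrangle (L := L) (orbit G x) h4 (X.orbit_not_collinear x h4)
      (fun l c hc => X.orbit_not_almost_collinear x h4 l c hc)
  obtain ⟨m, h1, h2, h3, h5⟩ := subplane_counts (fixedBy P g) (fixedBy L g) (X.join_fixed g)
    (X.meet_fixed g) a b c d (hO ha) (hO hb) (hO hc) (hO hd) hab hac hbc hcd habc habd hacd hbcd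
  refine ⟨m, h1, h2, h3, h5, ?_⟩
  rw [← X.hord]
  apply sq_le_order (fixedBy P g) (fixedBy L g) (X.join_fixed g) (X.meet_fixed g) m h1 h2 h3
  intro huniv
  apply hg
  have := X.hfaith
  apply FaithfulSMul.eq_of_smul_eq_smul (α := P)
  intro p
  rw [one_smul]
  have : p ∈ fixedBy P g := by rw [huniv]; trivial
  exact this

theorem fix_card_modEq (g : G) (r : ℕ) (hr : r.Prime) (hg : orderOf g = r) :
    Nat.card P ≡ Nat.card (fixedBy P g) [MOD r] := by
  have : Fact r.Prime := ⟨hr⟩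
  have hpg : IsPGroup r (Subgroup.zpowers g) := by
    apply IsPGroup.of_card (n := 1)
    rw [Nat.card_zpowers, hg, pow_one]
  have h1 := hpg.card_modEq_card_fixedPoints (α := P)
  have h2 : fixedPoints (Subgroup.zpowers g) P = fixedBy P g := by
    ext p
    rw [mem_fixedPoints, mem_fixedBy]
    constructor
    · intro h
      exact h ⟨g, Subgroup.mem_zpowers g⟩
    · rintro h ⟨c, hc⟩
      obtain ⟨n, rfl⟩ := Subgroup.mem_zpowers_iff.1 hc
      exact MulAction.mem_stabilizer_iff.1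
        ((MulAction.stabilizer G p).zpow_mem (MulAction.mem_stabilizer_iff.2 h) n)
  rwa [h2] at h1

theorem fix_le (g : G) (hg : g ≠ 1) (x : P) (hx : g • x = x)
    (h4 : 4 ≤ (orbit G x).ncard) : Nat.card (fixedBy P g) ≤ k ^ 2 - k + 1 := by
  set r := (orderOf g).minFac with hr
  have hg1 : orderOf g ≠ 1 := by rwa [Ne, orderOf_eq_one_iff]
  have hrp : r.Prime := Nat.minFac_prime hg1
  have hrd : r ∣ orderOf g := Nat.minFac_dvd _
  obtain ⟨t, ht⟩ := hrd
  have hpos : 0 < orderOf g := orderOf_pos g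
  have ht0 : 0 < t := by
    rcases Nat.eq_zero_or_pos t with h | h
    · rw [h, mul_zero] at ht; omega
    · exact h
  set g' := g ^ t with hg'
  have hord : orderOf g' = r := by
    rw [hg', orderOf_pow_of_dvd ht0.ne' (by rw [ht]; exact dvd_mul_left _ _), ht]
    exact Nat.mul_div_cancel _ ht0
  have hg'1 : g' ≠ 1 := by
    intro h
    rw [h, orderOf_one] at hord
    exact hrp.one_lt.ne hord
  have hsub : fixedBy P g ⊆ fixedBy P g' := by
    intro p hp
    rw [mem_fixedBy] at hp ⊢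
    rw [hg']
    exact MulAction.mem_stabilizer_iff.1
        ((MulAction.stabilizer G p).pow_mem (MulAction.mem_stabilizer_iff.2 hp) t)
  have hx' : g' • x = x := hsub hx
  obtain ⟨m, h1, h2, h3, h5, h6⟩ := X.fix_counts g' hg'1 x hx' h4
  have h7 := X.fix_card_modEq g' r hrp hord
  have hle : Nat.card (fixedBy P g) ≤ Nat.card (fixedBy P g') :=
    Nat.card_mono (Set.toFinite _) hsub
  have hk := X.hk
  have hrq : r ∣ k ^ 2 - k + 1 := by
    have : r ∣ Nat.card G := by rw [← hord]; exact orderOf_dvd_natCard g'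
    rw [X.hG] at this
    exact hrp.dvd_of_dvd_pow this
  have hmk : m ≤ k := by
    by_contra h
    push Not at h
    nlinarith
  have hmk2 : m ≠ k := by
    rintro rfl
    rw [X.card_P, h1] at h7
    have h8 : r ∣ m ^ 2 + m + 1 := by
      have h9 : (m ^ 2 + m + 1) * (m ^ 2 - m + 1) ≡ 0 [MOD r] :=
        (Nat.modEq_zero_iff_dvd.2 (Dvd.dvd.mul_left hrq _))
      exact Nat.modEq_zero_iff_dvd.1 (h7.symm.trans h9)
    have h9 : r ∣ 2 * m := by
      have h10 := Nat.dvd_sub h8 hrq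
      have h11 : m ^ 2 + m + 1 - (m ^ 2 - m + 1) = 2 * m := by
        have : m ≤ m ^ 2 := by nlinarith
        omega
      rwa [h11] at h10
    rcases hrp.dvd_mul.1 h9 with h10 | h10
    · have : r = 2 := (Nat.prime_dvd_prime_iff_eq hrp Nat.prime_two).1 h10
      exact X.odd_q (this ▸ hrq)
    · have h11 : r ∣ m ^ 2 - m := by
        have : m ^ 2 - m = m * (m - 1) := by
          rw [sq, Nat.mul_sub, mul_one]
        rw [this]; exact Dvd.dvd.mul_right h10 _
      have h12 := (Nat.dvd_add_right h11).1 hrq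
      exact hrp.one_lt.ne' (Nat.dvd_one.1 h12)
  have hm : m + 1 ≤ k := by omega
  rw [h1] at hle
  have h13 := X.hq1
  have h14 : m ^ 2 + m + 1 ≤ k ^ 2 - k + 1 := by nlinarith
  omega

theorem orbit_le (x : P) (hx : stabilizer G x ≠ ⊥) : (orbit G x).ncard ≤ k ^ 2 - k + 1 := by
  by_cases h4 : 4 ≤ (orbit G x).ncard
  · obtain ⟨⟨g, hg⟩, hg1⟩ := (Subgroup.ne_bot_iff_exists_ne_one.1 hx)
    have h1 : g ≠ 1 := fun h => hg1 (Subtype.ext h)
    have h2 := X.fix_le g h1 x hg h4
    have hO : orbit G x ⊆ fixedBy P g := fun y hy => X.hqP g x y hy hg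
    have h3 : (orbit G x).ncard ≤ (fixedBy P g).ncard := Set.ncard_le_ncard hO (Set.toFinite _)
    rw [Nat.card_coe_set_eq] at h2
    omega
  · have := X.hq7
    omega

theorem card_orbit_mul (x : P) :
    (orbit G x).ncard * Nat.card (stabilizer G x) = (k ^ 2 - k + 1) ^ 2 := by
  rw [← index_stabilizer, Subgroup.index_mul_card, X.hG]

theorem sum_orbits :
    ∑ᶠ ω : orbitRel.Quotient G P, (orbit G ω.out).ncard = (k ^ 2 + k + 1) * (k ^ 2 - k + 1) := by
  have : Fintype P := Fintype.ofFinite P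
  have : Fintype (orbitRel.Quotient G P) := Fintype.ofFinite _
  rw [← X.card_P, Nat.card_congr (selfEquivSigmaOrbits G P), Nat.card_sigma, finsum_eq_sum_of_fintype]
  rfl

/-- There is exactly one regular point orbit; the others have `k ^ 2 - k + 1` points. -/
theorem orbit_structure : ∃ ω₀ : orbitRel.Quotient G P, stabilizer G ω₀.out = ⊥ ∧
    ∀ ω : orbitRel.Quotient G P, ω ≠ ω₀ → (orbit G ω.out).ncard = k ^ 2 - k + 1 ∧
      Nat.card (stabilizer G ω.out) = k ^ 2 - k + 1 := by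
  classical
  have : Fintype (orbitRel.Quotient G P) := Fintype.ofFinite _
  have hsum := X.sum_orbits
  rw [finsum_eq_sum_of_fintype] at hsum
  set q := k ^ 2 - k + 1 with hq
  have hq7 := X.hq7
  rw [← hq] at hq7
  have hk := X.hk
  have h2q := X.two_q_gt
  rw [← hq] at h2q
  have hcard : Fintype.card (orbitRel.Quotient G P) = 2 * k + 1 := by
    rw [← X.hOrb, Nat.card_eq_fintype_card]
  have hle : ∀ ω : orbitRel.Quotient G P, stabilizer G ω.out ≠ ⊥ →
      (orbit G ω.out).ncard ≤ q := fun ω h => X.orbit_le _ h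
  have hbot : ∀ ω : orbitRel.Quotient G P, stabilizer G ω.out = ⊥ →
      (orbit G ω.out).ncard = q ^ 2 := by
    intro ω h
    have h1 := X.card_orbit_mul ω.out
    rw [h, Subgroup.card_bot, mul_one] at h1
    exact h1
  -- existence of a regular orbit
  have hex : ∃ ω₀ : orbitRel.Quotient G P, stabilizer G ω₀.out = ⊥ := by
    by_contra hcon
    push Not at hcon
    have h1 : ∑ ω : orbitRel.Quotient G P, (orbit G ω.out).ncard ≤
        ∑ _ω : orbitRel.Quotient G P, q := Finset.sum_le_sum fun ω _ => hle ω (hcon ω)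
    rw [hsum, Finset.sum_const, Finset.card_univ, hcard, smul_eq_mul] at h1
    have h2 := Nat.le_of_mul_le_mul_right h1 (by omega)
    nlinarith
  obtain ⟨ω₀, hω₀⟩ := hex
  have huniq : ∀ ω, ω ≠ ω₀ → stabilizer G ω.out ≠ ⊥ := by
    intro ω hne hb
    have h1 : ∑ ω ∈ ({ω, ω₀} : Finset (orbitRel.Quotient G P)), (orbit G ω.out).ncard ≤
        ∑ ω : orbitRel.Quotient G P, (orbit G ω.out).ncard :=
      Finset.sum_le_sum_of_subset (Finset.subset_univ _)
    rw [Finset.sum_pair hne, hbot ω hb, hbot ω₀ hω₀, hsum] at h1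
    have h2 : (k ^ 2 + k + 1) * q < 2 * q * q := by
      exact Nat.mul_lt_mul_of_pos_right h2q (by omega)
    have h3 : q ^ 2 + q ^ 2 = 2 * q * q := by ring
    omega
  refine ⟨ω₀, hω₀, ?_⟩
  -- the remaining orbits have total size `2 * k * q`
  have h1 : ∑ ω ∈ Finset.univ.erase ω₀, (orbit G ω.out).ncard = 2 * k * q := by
    have h2 := Finset.add_sum_erase Finset.univ
      (fun ω : orbitRel.Quotient G P => (orbit G ω.out).ncard) (Finset.mem_univ ω₀)
    rw [hsum] at h2
    simp only [hbot ω₀ hω₀] at h2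
    have h3 : (k ^ 2 + k + 1) * q = q ^ 2 + 2 * k * q := by
      have h4 := X.hq1
      rw [← hq] at h4
      have h5 : k ^ 2 + k + 1 = q + 2 * k := by omega
      rw [h5]; ring
    omega
  have h2 : ∑ _ω ∈ Finset.univ.erase ω₀, q = 2 * k * q := by
    rw [Finset.sum_const, Finset.card_erase_of_mem (Finset.mem_univ _), Finset.card_univ, hcard]
    simp
  have h3 := (Finset.sum_eq_sum_iff_of_le (s := Finset.univ.erase ω₀)
    (f := fun ω : orbitRel.Quotient G P => (orbit G ω.out).ncard) (g := fun _ => q)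
    (fun ω hω => hle ω (huniq ω (Finset.ne_of_mem_erase hω)))).1 (h1.trans h2.symm)
  intro ω hω
  have h4 := h3 ω (Finset.mem_erase.2 ⟨hω, Finset.mem_univ _⟩)
  refine ⟨h4, ?_⟩
  have h5 := X.card_orbit_mul ω.out
  rw [← hq] at h5
  rw [h4, sq] at h5
  exact Nat.eq_of_mul_eq_mul_left (by omega) h5

end TypeH

end Pool.Agent.P8H40.Geo
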