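import Mathlib
import Pool.Agent.P8H40.TypeH

/-!
# The configuration of orbits of a type (h) group
-/

set_option autoImplicit false

namespace Pool.Agent.P8H40.Geo

open Configuration MulAction

/-- The orbit configuration of a type (h) group, with the indexing of the nonregular orbits. -/
structure Cfg (P L G : Type) [Membership P L] [ProjectivePlane P L] [Finite P] [Group G]
    [Finite G] [MulAction G P] [MulAction G L] (k : ℕ) (I : Type) [Fintype I] where
  X : TypeH P L G k
  x0 : P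
  hx0 : stabilizer G x0 = ⊥
  pt : I → P
  hI : Fintype.card I = 2 * k
  hO : ∀ i, (orbit G (pt i)).ncard = k ^ 2 - k + 1
  hH : ∀ i, Nat.card (stabilizer G (pt i)) = k ^ 2 - k + 1
  cover : ∀ p, p ∈ orbit G x0 ∨ ∃ i, p ∈ orbit G (pt i)
  disj : ∀ i p, p ∈ orbit G x0 → p ∉ orbit G (pt i)
  disj2 : ∀ i j p, i ≠ j → p ∈ orbit G (pt i) → p ∉ orbit G (pt j)

variable {P L G : Type} [Membership P L] [ProjectivePlane P L] [Finite P] [Finite L] [Group G]
  [Finite G] [MulAction G P] [MulAction G L] {k : ℕ} {I : Type} [Fintype I]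

namespace Cfg

variable (C : Cfg P L G k I)

/-- The nonregular orbits. -/
def O (i : I) : Set P := orbit G (C.pt i)

/-- The regular orbit. -/
def U : Set P := orbit G C.x0

/-- The stabilizers of the nonregular orbits. -/
def H (i : I) : Subgroup G := stabilizer G (C.pt i)

/-- The special lines of the `i`-th orbit. -/
def T (i : I) : Set L := {l | ∃ p ∈ C.O i, ∃ p' ∈ C.O i, p ≠ p' ∧ p ∈ l ∧ p' ∈ l}

theorem mem_H {i : I} {h : G} (hh : h ∈ C.H i) {p : P} (hp : p ∈ C.O i) : h • p = p :=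
  C.X.hqP h (C.pt i) p hp hh

theorem smul_mem_O {i : I} (g : G) {p : P} (hp : p ∈ C.O i) : g • p ∈ C.O i :=
  C.X.smul_mem_orbit' g hp

theorem smul_mem_U (g : G) {p : P} (hp : p ∈ C.U) : g • p ∈ C.U :=
  C.X.smul_mem_orbit' g hp

theorem mem_H_of_smul {i : I} {h : G} {p : P} (hp : p ∈ C.O i) (hhp : h • p = p) : h ∈ C.H i := by
  have h1 : C.pt i ∈ orbit G p := mem_orbit_symm.1 hp
  exact C.X.hqP h p (C.pt i) h1 hhp

theorem fixed_eq (i : I) (h : G) (hh : h ∈ C.H i) (h1 : h ≠ 1) : fixedBy P h = C.O i := by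
  have hk := C.X.hq7
  have h2 := C.X.fix_le h h1 (C.pt i) hh (by rw [C.hO i]; omega)
  have h3 : C.O i ⊆ fixedBy P h := fun p hp => C.mem_H hh hp
  refine (Set.eq_of_subset_of_ncard_le h3 ?_ (Set.toFinite _)).symm
  rw [← Nat.card_coe_set_eq]
  rw [show (C.O i).ncard = k ^ 2 - k + 1 from C.hO i]
  exact h2

theorem exists_ne_one (i : I) : ∃ h ∈ C.H i, h ≠ 1 := by
  have h1 : C.H i ≠ ⊥ := by
    intro h
    have h2 := C.hH i
    rw [show stabilizer G (C.pt i) = C.H i from rfl, h, Subgroup.card_bot] at h2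
    have := C.X.hq7
    omega
  obtain ⟨⟨h, hh⟩, h2⟩ := (Subgroup.ne_bot_iff_exists_ne_one.1 h1)
  exact ⟨h, hh, fun h3 => h2 (Subtype.ext h3)⟩

theorem T_eq (i : I) (h : G) (hh : h ∈ C.H i) (h1 : h ≠ 1) :
    fixedBy L h = C.T i ∧ Nat.card (fixedBy L h) = k ^ 2 - k + 1 ∧
      (∀ l ∈ C.T i, Nat.card {p : P // p ∈ C.O i ∧ p ∈ l} = k) ∧
      (∀ p ∈ C.O i, Nat.card {l : L // l ∈ C.T i ∧ p ∈ l} = k) := by
  have hk := C.X.hk
  have hq1 := C.X.hq1
  have hq7 := C.X.hq7
  obtain ⟨m, hm1, hm2, hm3, hm4, hm5⟩ := C.X.fix_counts h h1 (C.pt i) hh (by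
    rw [C.hO i]; omega)
  rw [C.fixed_eq i h hh h1] at hm1 hm3 hm4
  have hmk : m + 1 = k := by
    have h3 : Nat.card (C.O i) = k ^ 2 - k + 1 := by
      rw [Nat.card_coe_set_eq]; exact C.hO i
    rw [h3] at hm1
    rcases lt_trichotomy (m + 1) k with h4 | h4 | h4
    · exfalso; nlinarith
    · exact h4
    · exfalso; nlinarith
  have hT : fixedBy L h = C.T i := by
    ext l
    constructor
    · intro hl
      have h2 := hm3 l hl
      have h3 : 1 < ({p : P | p ∈ C.O i ∧ p ∈ l}).ncard := by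
        rw [← Nat.card_coe_set_eq]
        have : Nat.card {p : P | p ∈ C.O i ∧ p ∈ l} = m + 1 := h2
        rw [this]
        omega
      obtain ⟨a, b, ha, hb, hab⟩ := (Set.one_lt_ncard_iff (Set.toFinite _)).1 h3
      exact ⟨a, ha.1, b, hb.1, hab, ha.2, hb.2⟩
    · rintro ⟨a, ha, b, hb, hab, hal, hbl⟩
      exact C.X.join_fixed h a (C.mem_H hh ha) b (C.mem_H hh hb) l hab hal hbl
  rw [hT] at hm2 hm3 hm4
  have h6 : m ^ 2 + m + 1 = k ^ 2 - k + 1 := by
    subst hmk
    have : (m + 1) ^ 2 = m ^ 2 + m + (m + 1) := by ring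
    omega
  refine ⟨hT, by rw [hT, hm2, h6], ?_, ?_⟩
  · intro l hl
    rw [hm3 l hl, hmk]
  · intro p hp
    rw [hm4 p hp, hmk]

theorem fixed_line (i : I) {h : G} (hh : h ∈ C.H i) {l : L} (hl : l ∈ C.T i) : h • l = l := by
  by_cases h1 : h = 1
  · rw [h1, one_smul]
  · have := (C.T_eq i h hh h1).1
    rw [← this] at hl
    exact hl

theorem card_T (i : I) : Nat.card (C.T i) = k ^ 2 - k + 1 := by
  obtain ⟨h, hh, h1⟩ := C.exists_ne_one i
  have := C.T_eq i h hh h1
  rw [← this.1, this.2.1]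

theorem line_pts (i : I) : ∀ l ∈ C.T i, Nat.card {p : P // p ∈ C.O i ∧ p ∈ l} = k := by
  obtain ⟨h, hh, h1⟩ := C.exists_ne_one i
  exact (C.T_eq i h hh h1).2.2.1

theorem pt_lines (i : I) : ∀ p ∈ C.O i, Nat.card {l : L // l ∈ C.T i ∧ p ∈ l} = k := by
  obtain ⟨h, hh, h1⟩ := C.exists_ne_one i
  exact (C.T_eq i h hh h1).2.2.2

theorem disjoint_H (i j : I) (hij : i ≠ j) : Disjoint (C.H i) (C.H j) := by
  rw [Subgroup.disjoint_def]
  intro h hi hj
  by_contra h1
  have h2 := C.fixed_eq i h hi h1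
  have h3 := C.fixed_eq j h hj h1
  have h4 : C.pt i ∈ C.O i := mem_orbit_self _
  have h5 : C.pt i ∈ C.O j := by rw [← h3, h2]; exact h4
  exact C.disj2 i j _ hij h4 h5

theorem isComplement (i j : I) (hij : i ≠ j) : Subgroup.IsComplement' (C.H i) (C.H j) := by
  apply Subgroup.isComplement'_of_card_mul_and_disjoint
  · rw [show Nat.card (C.H i) = k ^ 2 - k + 1 from C.hH i,
      show Nat.card (C.H j) = k ^ 2 - k + 1 from C.hH j, C.X.hG]; ring
  · exact C.disjoint_H i j hij

theorem exists_mul (i j : I) (hij : i ≠ j) (g : G) : ∃ a ∈ C.H i, ∃ b ∈ C.H j, a * b = g := by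
  obtain ⟨⟨⟨a, ha⟩, ⟨b, hb⟩⟩, hab, -⟩ :=
    (Subgroup.isComplement_iff_existsUnique.1 (C.isComplement i j hij)) g
  exact ⟨a, ha, b, hb, hab⟩

theorem normal_H (i : I) : (C.H i).Normal := by
  refine ⟨fun h hh g => ?_⟩
  apply C.mem_H_of_smul (p := g • C.pt i)
  · exact C.smul_mem_O g (mem_orbit_self _)
  · rw [mul_smul, mul_smul, inv_smul_smul]
    rw [show h • C.pt i = C.pt i from hh]

include C in
/-- The group is commutative. -/
theorem mul_comm' [DecidableEq I] (x y : G) : x * y = y * x := by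
  have hk := C.X.hk
  have hcomm : ∀ i j : I, i ≠ j → ∀ a ∈ C.H i, ∀ b ∈ C.H j, a * b = b * a := by
    intro i j hij a ha b hb
    exact Subgroup.commute_of_normal_of_disjoint (C.H i) (C.H j) (C.normal_H i) (C.normal_H j)
      (C.disjoint_H i j hij) a b ha hb
  have hthree : ∀ i : I, ∃ j l : I, i ≠ j ∧ i ≠ l ∧ j ≠ l := by
    intro i
    have h1 : 2 < Fintype.card I := by rw [C.hI]; omega
    obtain ⟨j, hj⟩ := Fintype.exists_ne_of_one_lt_card (by omega : 1 < Fintype.card I) i
    have h2 : ∃ l, l ∉ ({i, j} : Finset I) := by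
      by_contra hcon
      push Not at hcon
      have h3 : (Finset.univ : Finset I) ⊆ {i, j} := fun x _ => hcon x
      have h4 := Finset.card_le_card h3
      rw [Finset.card_univ] at h4
      have h5 : ({i, j} : Finset I).card ≤ 2 := Finset.card_le_two
      omega
    obtain ⟨l, hl⟩ := h2
    simp only [Finset.mem_insert, Finset.mem_singleton, not_or] at hl
    exact ⟨j, l, hj.symm, fun h => hl.1 h.symm, fun h => hl.2 h.symm⟩
  have hcent : ∀ i : I, ∀ a ∈ C.H i, ∀ g : G, a * g = g * a := by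
    intro i a ha g
    obtain ⟨j, l, hij, hil, hjl⟩ := hthree i
    obtain ⟨b, hb, c, hc, rfl⟩ := C.exists_mul j l hjl g
    rw [← mul_assoc, hcomm i j hij a ha b hb, mul_assoc, hcomm i l hil a ha c hc, mul_assoc]
  obtain ⟨i⟩ : Nonempty I := by
    rw [← Fintype.card_pos_iff, C.hI]; omega
  obtain ⟨j, l, hij, -, -⟩ := hthree i
  obtain ⟨b, hb, c, hc, rfl⟩ := C.exists_mul i j hij x
  rw [mul_assoc, hcent j c hc y, ← mul_assoc, hcent i b hb y, mul_assoc]

theorem not_mem_of_other (i j : I) (hij : i ≠ j) (z : P) (hz : z ∈ C.O j) (l : L)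
    (hl : l ∈ C.T i) : z ∉ l := by
  intro hzl
  obtain ⟨h, hh, h1⟩ := C.exists_ne_one i
  have h2 : h • l = l := C.fixed_line i hh hl
  have h3 : h • z ∈ l := by
    have := (C.X.hinc h z l).1 hzl
    rwa [h2] at this
  have h4 : h • z ≠ z := by
    intro h5
    have h6 : z ∈ fixedBy P h := h5
    rw [C.fixed_eq i h hh h1] at h6
    exact C.disj2 i j z hij h6 hz
  have h5 : l ∈ C.T j := ⟨h • z, C.smul_mem_O h hz, z, hz, h4, h3, hzl⟩
  apply C.X.hfixL
  refine ⟨l, fun g => ?_⟩
  obtain ⟨a, ha, b, hb, rfl⟩ := C.exists_mul i j hij g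
  rw [mul_smul, C.fixed_line j hb h5, C.fixed_line i ha hl]

theorem mem_cases (p : P) : p ∈ C.U ∨ ∃ i, p ∈ C.O i := C.cover p

theorem not_O_of_U {i : I} {p : P} (hp : p ∈ C.U) : p ∉ C.O i := C.disj i p hp

theorem not_O_of_O {i j : I} {p : P} (hij : i ≠ j) (hp : p ∈ C.O i) : p ∉ C.O j :=
  C.disj2 i j p hij hp

theorem card_U : Nat.card C.U = (k ^ 2 - k + 1) ^ 2 := by
  have h1 := C.X.card_orbit_mul C.x0
  rw [C.hx0, Subgroup.card_bot, mul_one] at h1
  rw [Nat.card_coe_set_eq]
  exact h1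

open Classical in
theorem U_pts (i : I) (l : L) (hl : l ∈ C.T i) :
    Nat.card {p : P // p ∈ C.U ∧ p ∈ l} = k ^ 2 - k + 1 := by
  have : Fintype P := Fintype.ofFinite P
  have h1 := C.line_pts i l hl
  have h2 := ProjectivePlane.pointCount_eq P l
  rw [pointCount, C.X.hord] at h2
  rw [Nat.card_eq_fintype_card, Fintype.card_subtype] at h1 h2 ⊢
  have h3 : Finset.univ.filter (fun p : P => p ∈ l) =
      Finset.univ.filter (fun p : P => p ∈ C.U ∧ p ∈ l) ∪
        Finset.univ.filter (fun p : P => p ∈ C.O i ∧ p ∈ l) := by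
    ext p
    simp only [Finset.mem_union, Finset.mem_filter, Finset.mem_univ, true_and]
    constructor
    · intro hp
      rcases C.mem_cases p with h | ⟨j, hj⟩
      · exact Or.inl ⟨h, hp⟩
      · by_cases hij : i = j
        · subst hij; exact Or.inr ⟨hj, hp⟩
        · exact absurd hp (C.not_mem_of_other i j hij p hj l hl)
    · rintro (h | h) <;> exact h.2
  have h4 : Disjoint (Finset.univ.filter (fun p : P => p ∈ C.U ∧ p ∈ l))
      (Finset.univ.filter (fun p : P => p ∈ C.O i ∧ p ∈ l)) := by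
    rw [Finset.disjoint_left]
    intro p hp hp2
    simp only [Finset.mem_filter, Finset.mem_univ, true_and] at hp hp2
    exact C.not_O_of_U hp.1 hp2.1
  rw [h3, Finset.card_union_of_disjoint h4, h1] at h2
  have := C.X.hq1
  omega

theorem U_line_unique (i : I) (z : P) (hz : z ∈ C.U) (l m : L) (hl : l ∈ C.T i)
    (hm : m ∈ C.T i) (hzl : z ∈ l) (hzm : z ∈ m) : l = m := by
  by_contra hlm
  obtain ⟨h, hh, h1⟩ := C.exists_ne_one i
  have h2 := C.X.meet_fixed h l (C.fixed_line i hh hl) m (C.fixed_line i hh hm) z hlm hzl hzm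
  rw [C.fixed_eq i h hh h1] at h2
  exact C.not_O_of_U hz h2

open Classical in
theorem U_lines (i : I) (z : P) (hz : z ∈ C.U) :
    Nat.card {l : L // l ∈ C.T i ∧ z ∈ l} = 1 := by
  have : Fintype P := Fintype.ofFinite P
  have : Fintype L := Fintype.ofFinite L
  have h0 := Finset.sum_card_bipartiteAbove_eq_sum_card_bipartiteBelow
    (s := Finset.univ.filter (fun p : P => p ∈ C.U))
    (t := Finset.univ.filter (fun l : L => l ∈ C.T i)) (fun (p : P) (l : L) => p ∈ l)
  have h1 : ∀ l ∈ Finset.univ.filter (fun l : L => l ∈ C.T i),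
      ((Finset.univ.filter (fun p : P => p ∈ C.U)).bipartiteBelow
        (fun (p : P) (l : L) => p ∈ l) l).card = k ^ 2 - k + 1 := by
    intro l hl
    simp only [Finset.mem_filter, Finset.mem_univ, true_and] at hl
    have h2 := C.U_pts i l hl
    rw [Nat.card_eq_fintype_card, Fintype.card_subtype] at h2
    rw [← h2, Finset.bipartiteBelow, Finset.filter_filter]
  rw [Finset.sum_congr rfl h1, Finset.sum_const, smul_eq_mul] at h0
  have h2 : (Finset.univ.filter (fun l : L => l ∈ C.T i)).card = k ^ 2 - k + 1 := by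
    rw [← C.card_T i, Nat.card_eq_fintype_card, ← Set.toFinset_card]
    congr 1
    ext l; simp
  have h3 : (Finset.univ.filter (fun p : P => p ∈ C.U)).card = (k ^ 2 - k + 1) ^ 2 := by
    rw [← C.card_U, Nat.card_eq_fintype_card, ← Set.toFinset_card]
    congr 1
    ext l; simp
  rw [h2, ← sq, ← h3] at h0
  have h4 : ∀ p ∈ Finset.univ.filter (fun p : P => p ∈ C.U),
      ((Finset.univ.filter (fun l : L => l ∈ C.T i)).bipartiteAbove
        (fun (p : P) (l : L) => p ∈ l) p).card ≤ 1 := by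
    intro p hp
    simp only [Finset.mem_filter, Finset.mem_univ, true_and] at hp
    rw [Finset.card_le_one]
    intro l hl m hm
    simp only [Finset.bipartiteAbove, Finset.mem_filter, Finset.mem_univ, true_and] at hl hm
    exact C.U_line_unique i p hp l m hl.1 hm.1 hl.2 hm.2
  have h5 := (Finset.sum_eq_sum_iff_of_le h4).1 (by rw [h0]; simp)
  have h6 := h5 z (by simpa using hz)
  rw [Finset.bipartiteAbove, Finset.filter_filter] at h6
  rw [Nat.card_eq_fintype_card, Fintype.card_subtype]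
  exact h6

open Classical in
theorem O_lines_other (i j : I) (hij : i ≠ j) (z : P) (hz : z ∈ C.O j) :
    Nat.card {l : L // l ∈ C.T i ∧ z ∈ l} = 0 := by
  have : IsEmpty {l : L // l ∈ C.T i ∧ z ∈ l} :=
    ⟨fun l => C.not_mem_of_other i j hij z hz l.1 l.2.1 l.2.2⟩
  exact Nat.card_of_isEmpty

open Classical in
/-- Counting the special lines of one kind by their intersection with a nonspecial line. -/
theorem line_count (i : I) (l0 : L) (hl0 : l0 ∉ C.T i) :
    k ^ 2 - k + 1 = Nat.card {p : P // p ∈ C.U ∧ p ∈ l0} +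
      k * Nat.card {p : P // p ∈ C.O i ∧ p ∈ l0} := by
  have : Fintype P := Fintype.ofFinite P
  have : Fintype L := Fintype.ofFinite L
  have h0 := Finset.sum_card_bipartiteAbove_eq_sum_card_bipartiteBelow
    (s := Finset.univ.filter (fun p : P => p ∈ l0))
    (t := Finset.univ.filter (fun l : L => l ∈ C.T i)) (fun (p : P) (l : L) => p ∈ l)
  have h1 : ∀ l ∈ Finset.univ.filter (fun l : L => l ∈ C.T i),
      ((Finset.univ.filter (fun p : P => p ∈ l0)).bipartiteBelow
        (fun (p : P) (l : L) => p ∈ l) l).card = 1 := by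
    intro l hl
    simp only [Finset.mem_filter, Finset.mem_univ, true_and] at hl
    have hne : l0 ≠ l := by rintro rfl; exact hl0 hl
    obtain ⟨p, ⟨hp1, hp2⟩, huniq⟩ := HasPoints.existsUnique_point P L l0 l hne
    rw [Finset.card_eq_one]
    refine ⟨p, ?_⟩
    ext p'
    simp only [Finset.bipartiteBelow, Finset.mem_filter, Finset.mem_univ, true_and,
      Finset.mem_singleton]
    constructor
    · intro h; exact huniq p' h
    · rintro rfl; exact ⟨hp1, hp2⟩
  rw [Finset.sum_congr rfl h1, Finset.sum_const, smul_eq_mul, mul_one] at h0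
  have h2 : (Finset.univ.filter (fun l : L => l ∈ C.T i)).card = k ^ 2 - k + 1 := by
    rw [← C.card_T i, Nat.card_eq_fintype_card, ← Set.toFinset_card]
    congr 1
    ext l; simp
  rw [h2] at h0
  rw [← h0]
  have h3 : ∀ p ∈ Finset.univ.filter (fun p : P => p ∈ l0),
      ((Finset.univ.filter (fun l : L => l ∈ C.T i)).bipartiteAbove
        (fun (p : P) (l : L) => p ∈ l) p).card =
        (if p ∈ C.U then 1 else 0) + (if p ∈ C.O i then k else 0) := by
    intro p _
    rw [Finset.bipartiteAbove, Finset.filter_filter]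
    rw [← Fintype.card_subtype, ← Nat.card_eq_fintype_card]
    rcases C.mem_cases p with h | ⟨j, hj⟩
    · rw [C.U_lines i p h, if_pos h, if_neg (C.not_O_of_U h)]
    · have hU : p ∉ C.U := fun h => C.not_O_of_U h hj
      by_cases hij : i = j
      · subst hij
        rw [C.pt_lines i p hj, if_neg hU, if_pos hj, zero_add]
      · rw [C.O_lines_other i j hij p hj, if_neg hU,
          if_neg (C.not_O_of_O (Ne.symm hij) hj)]
  rw [Finset.sum_congr rfl h3, Finset.sum_add_distrib, ← Finset.sum_filter, ← Finset.sum_filter,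
    Finset.sum_const, Finset.sum_const, Finset.filter_filter, Finset.filter_filter,
    Nat.card_eq_fintype_card, Nat.card_eq_fintype_card, Fintype.card_subtype,
    Fintype.card_subtype, smul_eq_mul, smul_eq_mul, mul_one, mul_comm k]
  congr 2
  · congr 1; ext p; simp [and_comm]
  · congr 2; ext p; simp [and_comm]

open Classical in
/-- A nonspecial line exists. -/
theorem exists_nonspecial : ∃ l0 : L, ∀ i, l0 ∉ C.T i := by
  have : Fintype L := Fintype.ofFinite L
  by_contra hcon
  push Not at hcon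
  have h1 : (Finset.univ : Finset L) ⊆
      Finset.univ.biUnion (fun i : I => Finset.univ.filter (fun l : L => l ∈ C.T i)) := by
    intro l _
    obtain ⟨i, hi⟩ := hcon l
    simp only [Finset.mem_biUnion, Finset.mem_filter, Finset.mem_univ, true_and]
    exact ⟨i, hi⟩
  have h2 := Finset.card_le_card h1
  have h3 := Finset.card_biUnion_le (s := (Finset.univ : Finset I))
    (t := fun i : I => Finset.univ.filter (fun l : L => l ∈ C.T i))
  have h4 : ∀ i : I, (Finset.univ.filter (fun l : L => l ∈ C.T i)).card = k ^ 2 - k + 1 := by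
    intro i
    rw [← C.card_T i, Nat.card_eq_fintype_card, ← Set.toFinset_card]
    congr 1
    ext l; simp
  simp only [h4, Finset.sum_const, Finset.card_univ, C.hI, smul_eq_mul] at h3
  have h5 := C.X.card_L
  rw [Nat.card_eq_fintype_card] at h5
  rw [Finset.card_univ, h5] at h2
  have h6 := h2.trans h3
  have h7 := C.X.hq7
  have h8 := C.X.hq1
  have h9 := Nat.le_of_mul_le_mul_right h6 (by omega)
  omega

end Cfg

end Pool.Agent.P8H40.Geo
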