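import Mathlib

/-!
# Group ring tools: self-conjugacy of primes

Basic facts on the integral group ring of a finite commutative group, used to rule out
quasiregular collineation groups of type (h).
-/

set_option autoImplicit false

namespace Pool.Agent.P8H40.GR

open MonoidAlgebra

variable {A : Type*} [CommGroup A]

/-- The ring endomorphism of the group ring induced by inversion. -/
noncomputable def conj (R : Type*) [CommRing R] :
    MonoidAlgebra R A →+* MonoidAlgebra R A :=
  mapDomainRingHom R (MulEquiv.inv A).toMonoidHom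

theorem conj_single {R : Type*} [CommRing R] (g : A) (c : R) :
    conj R (single g c) = single g⁻¹ c := by
  simp [conj]

theorem coeff_conj {R : Type*} [CommRing R] (x : MonoidAlgebra R A) (g : A) :
    (conj R x).coeff g = x.coeff g⁻¹ := by
  classical
  induction x using MonoidAlgebra.induction_linear with
  | zero => simp
  | add x y hx hy => simp [hx, hy]
  | single a b =>
    rw [conj_single]
    simp only [coeff_single, Finsupp.single_apply]
    congr 1
    exact propext (inv_eq_iff_eq_inv)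

theorem conj_conj {R : Type*} [CommRing R] (x : MonoidAlgebra R A) :
    conj R (conj R x) = x := by
  ext g
  rw [coeff_conj, coeff_conj, inv_inv]

theorem pow_char_eq_conj (r : ℕ) [hr : Fact r.Prime] (j : ℕ)
    (hj : ∀ g : A, g ^ (r ^ j) = g⁻¹) (x : MonoidAlgebra (ZMod r) A) :
    x ^ (r ^ j) = conj (ZMod r) x := by
  have hchar : CharP (MonoidAlgebra (ZMod r) A) r :=
    charP_of_injective_algebraMap
      (algebraMap (ZMod r) (MonoidAlgebra (ZMod r) A)).injective r
  have hexp : ExpChar (MonoidAlgebra (ZMod r) A) r := ExpChar.prime hr.out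
  induction x using MonoidAlgebra.induction_linear with
  | zero =>
    rw [map_zero, zero_pow]
    exact pow_ne_zero _ hr.out.ne_zero
  | add x y hx hy =>
    rw [add_pow_expChar_pow, hx, hy, map_add]
  | single a b =>
    rw [conj_single, single_pow, hj, ZMod.pow_card_pow]

theorem eq_zero_of_mul_conj (r : ℕ) [hr : Fact r.Prime] (j : ℕ) (hj0 : j ≠ 0)
    (hj : ∀ g : A, g ^ (r ^ j) = g⁻¹) (x : MonoidAlgebra (ZMod r) A)
    (hx : x * conj (ZMod r) x = 0) : x = 0 := by
  have h1 : x ^ (r ^ j + 1) = 0 := by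
    rw [pow_succ', pow_char_eq_conj r j hj x, hx]
  have h2 : x ^ (r ^ j * r ^ j) = x := by
    rw [pow_mul, pow_char_eq_conj r j hj x, pow_char_eq_conj r j hj, conj_conj]
  have h3 : 2 ≤ r ^ j := by
    calc 2 ≤ r := hr.out.two_le
      _ ≤ r ^ j := Nat.le_self_pow hj0 r
  have h4 : r ^ j + 1 ≤ r ^ j * r ^ j := by nlinarith
  rw [← h2]
  exact pow_eq_zero_of_le h4 h1

/-- Reduction modulo `r`. -/
noncomputable def red (r : ℕ) : MonoidAlgebra ℤ A →+* MonoidAlgebra (ZMod r) A :=
  mapRingHom A (Int.castRingHom (ZMod r))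

theorem coeff_red (r : ℕ) (x : MonoidAlgebra ℤ A) (g : A) :
    (red r x).coeff g = ((x.coeff g : ℤ) : ZMod r) := by
  simp [red]

theorem red_conj (r : ℕ) (x : MonoidAlgebra ℤ A) :
    red r (conj ℤ x) = conj (ZMod r) (red r x) := by
  ext g
  rw [coeff_red, coeff_conj, coeff_conj, coeff_red]

theorem exists_smul_of_dvd (r : ℤ) (hr : r ≠ 0) (x : MonoidAlgebra ℤ A)
    (h : ∀ g, r ∣ x.coeff g) : ∃ y : MonoidAlgebra ℤ A, x = r • y := by
  classical
  refine ⟨MonoidAlgebra.ofCoeff (x.coeff.mapRange (fun z => z / r) (by simp)), ?_⟩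
  ext g
  rw [coeff_smul_apply]
  simp only [coeff_ofCoeff, Finsupp.mapRange_apply, smul_eq_mul]
  exact (Int.mul_ediv_cancel' (h g)).symm

theorem dvd_of_red_eq_zero (r : ℕ) (x : MonoidAlgebra ℤ A) (h : red r x = 0) (g : A) :
    (r : ℤ) ∣ x.coeff g := by
  have := coeff_red r x g
  rw [h] at this
  simp only [coeff_zero, Finsupp.coe_zero, Pi.zero_apply] at this
  exact (ZMod.intCast_zmod_eq_zero_iff_dvd _ _).1 this.symm

theorem red_eq_zero_of_dvd (r : ℕ) (x : MonoidAlgebra ℤ A) (h : ∀ g, (r : ℤ) ∣ x.coeff g) :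
    red r x = 0 := by
  ext g
  rw [coeff_red]
  simpa using (ZMod.intCast_zmod_eq_zero_iff_dvd _ _).2 (h g)

/-- If `r` is self-conjugate modulo the exponent of the group, then divisibility of `Y * conj Y`
by an even power of `r` passes to `Y`. -/
theorem dvd_of_dvd_mul_conj (r : ℕ) [hr : Fact r.Prime] (j : ℕ) (hj0 : j ≠ 0)
    (hj : ∀ g : A, g ^ (r ^ j) = g⁻¹) (b : ℕ) :
    ∀ Y : MonoidAlgebra ℤ A, (∀ g, ((r : ℤ) ^ (2 * b)) ∣ (Y * conj ℤ Y).coeff g) →
      ∀ g, ((r : ℤ) ^ b) ∣ Y.coeff g := by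
  induction b with
  | zero => intro Y _ g; simp
  | succ b ih =>
    intro Y hY g
    have hr0 : (r : ℤ) ≠ 0 := by exact_mod_cast hr.out.ne_zero
    have h1 : red r Y = 0 := by
      apply eq_zero_of_mul_conj r j hj0 hj
      rw [← red_conj, ← map_mul]
      apply red_eq_zero_of_dvd
      intro g
      refine Dvd.dvd.trans ?_ (hY g)
      exact dvd_pow_self _ (by omega)
    obtain ⟨Z, hZ⟩ := exists_smul_of_dvd (r : ℤ) hr0 Y (dvd_of_red_eq_zero r Y h1)
    have h2 : ∀ g, ((r : ℤ) ^ (2 * b)) ∣ (Z * conj ℤ Z).coeff g := by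
      intro g
      have h3 := hY g
      have h4 : Y * conj ℤ Y = ((r : ℤ) ^ 2) • (Z * conj ℤ Z) := by
        rw [hZ, map_zsmul, smul_mul_smul_comm, sq]
      rw [h4, coeff_smul_apply, smul_eq_mul,
        show (r : ℤ) ^ (2 * (b + 1)) = (r : ℤ) ^ 2 * (r : ℤ) ^ (2 * b) by ring] at h3
      exact (mul_dvd_mul_iff_left (pow_ne_zero 2 hr0)).1 h3
    have h5 := ih Z h2 g
    rw [hZ, coeff_smul_apply, smul_eq_mul, pow_succ']
    exact mul_dvd_mul_left _ h5

end Pool.Agent.P8H40.GR
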