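import Mathlib
import Pool.Agent.P8H40.GroupRing

/-!
# The relative difference set of a type (h) group

The group-ring computation for a set `D` of `(k-1)^2` elements of an abelian group `A` of order
`(k^2-k+1)^2` with `2k` subgroups `H i` of order `k^2-k+1` meeting pairwise trivially, such that
the differences of `D` cover every element outside the union of the `H i` exactly once and no
nontrivial element of the union.
-/

set_option autoImplicit false

namespace Pool.Agent.P8H40.GR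

open MonoidAlgebra

/-- The combinatorial data read off from a type (h) group. -/
structure DData (A : Type*) [CommGroup A] [Fintype A] [DecidableEq A]
    (I : Type*) [Fintype I] [DecidableEq I] (k : ℕ) where
  D : Finset A
  H : I → Subgroup A
  hk : 3 ≤ k
  hI : Fintype.card I = 2 * k
  hA : Nat.card A = (k ^ 2 - k + 1) ^ 2
  hH : ∀ i, Nat.card (H i) = k ^ 2 - k + 1
  hdis : ∀ i j, i ≠ j → Disjoint (H i) (H j)
  hD : D.card = (k - 1) ^ 2
  hin : ∀ i, ∀ g ∈ H i, g ≠ 1 → ∀ d ∈ D, g * d ∉ D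
  hout : ∀ g, (∀ i, g ∉ H i) → (D.filter (fun d => g * d ∈ D)).card = 1

variable {A : Type*} [CommGroup A] [Fintype A] [DecidableEq A]

/-- The element of the group ring attached to a finite set. -/
noncomputable def el (s : Finset A) : MonoidAlgebra ℤ A := ∑ g ∈ s, single g 1

theorem coeff_el (s : Finset A) (g : A) : (el s).coeff g = if g ∈ s then 1 else 0 := by
  simp [el, Finsupp.single_apply]

theorem coeff_el_mul (s : Finset A) (x : MonoidAlgebra ℤ A) (g : A) :
    (el s * x).coeff g = ∑ h ∈ s, x.coeff (h⁻¹ * g) := by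
  rw [el, Finset.sum_mul, coeff_sum, Finsupp.finsetSum_apply]
  refine Finset.sum_congr rfl fun h _ => ?_
  rw [coeff_single_mul_apply, one_mul]

theorem univ_mul (x : MonoidAlgebra ℤ A) :
    el (Finset.univ : Finset A) * x = (∑ g, x.coeff g) • el (Finset.univ : Finset A) := by
  ext g
  rw [coeff_el_mul, coeff_smul_apply, coeff_el]
  simp only [Finset.mem_univ, if_true, smul_eq_mul, mul_one]
  refine Fintype.sum_equiv ((Equiv.inv A).trans (Equiv.mulRight g)) _ _ ?_
  intro h; simp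

theorem mul_conj_coeff_one (x : MonoidAlgebra ℤ A) :
    (x * conj ℤ x).coeff 1 = ∑ g, x.coeff g ^ 2 := by
  rw [coeff_mul_apply_left, Finsupp.sum_fintype _ _ (by simp)]
  refine Finset.sum_congr rfl fun g _ => ?_
  rw [coeff_conj]; simp [sq]

variable {I : Type*} [Fintype I] [DecidableEq I] {k : ℕ} (X : DData A I k)

namespace DData

open Classical in
/-- The group ring element of the `i`-th subgroup. -/
noncomputable def h (i : I) : MonoidAlgebra ℤ A := el (Finset.univ.filter (· ∈ X.H i))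

/-- The group ring element of the difference set. -/
noncomputable def d : MonoidAlgebra ℤ A := el X.D

/-- The group ring element of the whole group. -/
noncomputable def t (_ : DData A I k) : MonoidAlgebra ℤ A := el Finset.univ

/-- The sum of all subgroup elements. -/
noncomputable def s : MonoidAlgebra ℤ A := ∑ i, X.h i

theorem coeff_t (g : A) : X.t.coeff g = 1 := by simp [t, coeff_el]

theorem coeff_h (i : I) (g : A) [Decidable (g ∈ X.H i)] :
    (X.h i).coeff g = if g ∈ X.H i then 1 else 0 := by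
  classical
  rw [h, coeff_el]
  simp

theorem coeff_s (g : A) : X.s.coeff g = ∑ i, (X.h i).coeff g := by
  rw [s, coeff_sum, Finsupp.finsetSum_apply]

theorem sum_h (i : I) : ∑ g, (X.h i).coeff g = (k : ℤ) ^ 2 - k + 1 := by
  classical
  have h1 := X.hH i
  have hk := X.hk
  simp only [coeff_h, Finset.sum_boole]
  rw [Nat.card_eq_fintype_card, Fintype.card_subtype] at h1
  rw [h1]
  have : k ≤ k ^ 2 := by nlinarith
  push_cast [this]
  ring

theorem sum_d : ∑ g, X.d.coeff g = ((k : ℤ) - 1) ^ 2 := by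
  classical
  have hk := X.hk
  simp only [d, coeff_el, Finset.sum_boole]
  simp only [Finset.filter_mem_eq_inter, Finset.univ_inter, X.hD]
  have : 1 ≤ k := by omega
  push_cast [this]
  ring

theorem conj_h (i : I) : conj ℤ (X.h i) = X.h i := by
  classical
  ext g
  rw [coeff_conj, coeff_h, coeff_h]
  simp

theorem conj_s : conj ℤ X.s = X.s := by
  rw [s, map_sum]
  exact Finset.sum_congr rfl fun i _ => X.conj_h i

theorem conj_t : conj ℤ X.t = X.t := by
  ext g
  rw [coeff_conj, coeff_t, coeff_t]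


theorem t_mul (x : MonoidAlgebra ℤ A) : X.t * x = (∑ g, x.coeff g) • X.t := univ_mul x

include X in
theorem card_A : (Fintype.card A : ℤ) = ((k : ℤ) ^ 2 - k + 1) ^ 2 := by
  have h1 := X.hA
  rw [Nat.card_eq_fintype_card] at h1
  rw [h1]
  have hk := X.hk
  have : k ≤ k ^ 2 := by nlinarith
  push_cast [this]
  ring

theorem t_mul_t : X.t * X.t = ((((k : ℤ) ^ 2 - k + 1) ^ 2 : ℤ) : MonoidAlgebra ℤ A) * X.t := by
  rw [t_mul, zsmul_eq_mul]
  congr 2
  simp only [coeff_t, Finset.sum_const, Finset.card_univ, nsmul_eq_mul, mul_one]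
  exact X.card_A

theorem t_mul_h (i : I) :
    X.t * X.h i = ((((k : ℤ) ^ 2 - k + 1) : ℤ) : MonoidAlgebra ℤ A) * X.t := by
  rw [t_mul, zsmul_eq_mul, X.sum_h]

theorem t_mul_d : X.t * X.d = ((((k : ℤ) - 1) ^ 2 : ℤ) : MonoidAlgebra ℤ A) * X.t := by
  rw [t_mul, zsmul_eq_mul, X.sum_d]

theorem t_mul_conj_d :
    X.t * conj ℤ X.d = ((((k : ℤ) - 1) ^ 2 : ℤ) : MonoidAlgebra ℤ A) * X.t := by
  have h := congrArg (conj ℤ) X.t_mul_d
  rw [map_mul, map_mul, X.conj_t, map_intCast] at h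
  exact h

theorem h_mul_h (i : I) :
    X.h i * X.h i = ((((k : ℤ) ^ 2 - k + 1) : ℤ) : MonoidAlgebra ℤ A) * X.h i := by
  classical
  have h0 : X.h i * X.h i = (((k : ℤ) ^ 2 - k + 1) : ℤ) • X.h i := by
    ext g
    conv_lhs => rw [show X.h i = el (Finset.univ.filter (· ∈ X.H i)) by
      rw [h]]
    rw [coeff_el_mul, coeff_smul_apply, smul_eq_mul, ← X.sum_h i, Finset.sum_mul,
      Finset.sum_filter]
    refine Finset.sum_congr rfl fun a _ => ?_
    rw [X.coeff_h i a]
    by_cases ha : a ∈ X.H i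
    · have h1 : (a⁻¹ * g ∈ X.H i) = (g ∈ X.H i) := by
        apply propext
        constructor
        · intro h2
          have := (X.H i).mul_mem ha h2
          simpa using this
        · intro h2
          exact (X.H i).mul_mem ((X.H i).inv_mem ha) h2
      simp only [ha, if_true, one_mul]
      rw [← h, X.coeff_h, X.coeff_h]
      simp only [h1]
    · simp [ha]
  rw [h0, zsmul_eq_mul]

theorem h_mul_h_ne (i j : I) (hij : i ≠ j) : X.h i * X.h j = X.t := by
  classical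
  have hcomp : Subgroup.IsComplement' (X.H i) (X.H j) := by
    apply Subgroup.isComplement'_of_card_mul_and_disjoint
    · rw [X.hH, X.hH, X.hA]; ring
    · exact X.hdis i j hij
  ext g
  rw [X.coeff_t]
  conv_lhs => rw [show X.h i = el (Finset.univ.filter (· ∈ X.H i)) by
      rw [h]]
  rw [coeff_el_mul]
  simp only [X.coeff_h, Finset.sum_boole]
  norm_cast
  rw [Finset.card_eq_one]
  obtain ⟨⟨⟨a, ha⟩, ⟨b, hb⟩⟩, hab, huniq⟩ :=
    (Subgroup.isComplement_iff_existsUnique.1 hcomp) g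
  refine ⟨a, ?_⟩
  ext c
  simp only [Finset.mem_filter, Finset.mem_univ, true_and, Finset.mem_singleton]
  constructor
  · rintro ⟨hc, hc2⟩
    have := huniq ⟨⟨c, hc⟩, ⟨c⁻¹ * g, hc2⟩⟩ (by simp)
    exact congrArg (fun z => ((z.1 : _) : A)) this
  · rintro rfl
    refine ⟨ha, ?_⟩
    have : c⁻¹ * g = b := by rw [← hab]; simp
    rw [this]; exact hb

theorem s_mul_h (i : I) : X.s * X.h i =
    ((((k : ℤ) ^ 2 - k + 1) : ℤ) : MonoidAlgebra ℤ A) * X.h i +
      (((2 * k - 1) : ℤ) : MonoidAlgebra ℤ A) * X.t := by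
  rw [s, Finset.sum_mul, ← Finset.add_sum_erase _ _ (Finset.mem_univ i), X.h_mul_h]
  congr 1
  rw [Finset.sum_congr rfl (fun j hj => X.h_mul_h_ne j i (Finset.ne_of_mem_erase hj))]
  rw [Finset.sum_const, Finset.card_erase_of_mem (Finset.mem_univ i), Finset.card_univ, X.hI,
    nsmul_eq_mul]
  congr 1
  have hk := X.hk
  have : 1 ≤ 2 * k := by omega
  push_cast [this]
  ring

theorem s_mul_s : X.s * X.s =
    ((((k : ℤ) ^ 2 - k + 1) : ℤ) : MonoidAlgebra ℤ A) * X.s +
      (((2 * k * (2 * k - 1)) : ℤ) : MonoidAlgebra ℤ A) * X.t := by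
  conv_lhs => rw [show X.s * X.s = X.s * ∑ i, X.h i by rw [← s]]
  rw [Finset.mul_sum]
  simp only [X.s_mul_h]
  rw [Finset.sum_add_distrib, ← Finset.mul_sum, ← s, Finset.sum_const, Finset.card_univ, X.hI,
    nsmul_eq_mul]
  push_cast
  ring

theorem s_mul_t : X.s * X.t =
    (((2 * k * ((k : ℤ) ^ 2 - k + 1)) : ℤ) : MonoidAlgebra ℤ A) * X.t := by
  rw [mul_comm, s, Finset.mul_sum]
  simp only [X.t_mul_h]
  rw [Finset.sum_const, Finset.card_univ, X.hI, nsmul_eq_mul]
  push_cast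
  ring

theorem d_mul_conj_d : X.d * conj ℤ X.d =
    ((((k : ℤ) ^ 2) : ℤ) : MonoidAlgebra ℤ A) + X.t - X.s := by
  classical
  have hk := X.hk
  ext g
  rw [d, coeff_el_mul]
  simp only [coeff_conj, coeff_el, Finset.sum_boole, coeff_sub, coeff_add, Finsupp.coe_sub,
    Finsupp.coe_add, Pi.sub_apply, Pi.add_apply, X.coeff_t, X.coeff_s]
  rw [intCast_def, coeff_single, Finsupp.single_apply]
  by_cases hg : g = 1
  · subst hg
    have h1 : (X.D.filter (fun x => (x⁻¹ * 1)⁻¹ ∈ X.D)) = X.D := by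
      apply Finset.filter_true_of_mem
      intro x hx; simpa using hx
    rw [h1, X.hD]
    have h2 : ∀ i, (X.h i).coeff 1 = 1 := by
      intro i
      rw [X.coeff_h, if_pos (X.H i).one_mem]
    simp only [h2, Finset.sum_const, Finset.card_univ, X.hI]
    have : 1 ≤ k := by omega
    push_cast [this]
    simp
    ring
  · have hg' : (1 : A) ≠ g := fun h => hg h.symm
    simp only [hg', if_false, zero_add]
    by_cases hgi : ∃ i, g ∈ X.H i
    · obtain ⟨i, hi⟩ := hgi
      have h1 : (X.D.filter (fun x => (x⁻¹ * g)⁻¹ ∈ X.D)) = ∅ := by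
        apply Finset.filter_false_of_mem
        intro x hx h2
        apply X.hin i g⁻¹ ((X.H i).inv_mem hi) (by simpa using hg) x hx
        have h3 : (x⁻¹ * g)⁻¹ = g⁻¹ * x := by group
        rwa [h3] at h2
      rw [h1]
      have h2 : ∑ j, (X.h j).coeff g = 1 := by
        rw [Finset.sum_eq_single i]
        · rw [X.coeff_h, if_pos hi]
        · intro j _ hj
          rw [X.coeff_h, if_neg]
          intro hjg
          apply hg
          have := Subgroup.disjoint_def.1 (X.hdis i j (Ne.symm hj)) hi hjg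
          exact this
        · intro h; exact absurd (Finset.mem_univ i) h
      rw [h2]; simp
    · push Not at hgi
      have h2 : ∑ j, (X.h j).coeff g = 0 := by
        apply Finset.sum_eq_zero
        intro j _
        rw [X.coeff_h, if_neg (hgi j)]
      rw [h2]
      have h3 := X.hout g⁻¹ (fun i hi => hgi i (by simpa using (X.H i).inv_mem hi))
      have h1 : (X.D.filter (fun x => (x⁻¹ * g)⁻¹ ∈ X.D)) =
          (X.D.filter (fun d => g⁻¹ * d ∈ X.D)) := by
        apply Finset.filter_congr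
        intro x _
        have h3 : (x⁻¹ * g)⁻¹ = g⁻¹ * x := by group
        rw [h3]
      rw [h1, h3]; simp


/-- The auxiliary element with norm divisible by `k ^ 2`. -/
noncomputable def y : MonoidAlgebra ℤ A :=
  X.d * (1 - X.s) + (((2 * k - 1) : ℤ) : MonoidAlgebra ℤ A) * X.t

theorem conj_y : conj ℤ X.y =
    conj ℤ X.d * (1 - X.s) + (((2 * k - 1) : ℤ) : MonoidAlgebra ℤ A) * X.t := by
  rw [y, map_add, map_mul, map_mul, map_sub, map_one, map_intCast, X.conj_s, X.conj_t]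

theorem y_mul_conj_y : X.y * conj ℤ X.y =
    ((((k : ℤ) ^ 2) : ℤ) : MonoidAlgebra ℤ A) *
      (1 + (((k : ℤ) - 2 : ℤ) : MonoidAlgebra ℤ A) * X.s
        + (((k : ℤ) ^ 2 + 2 * k - 1 : ℤ) : MonoidAlgebra ℤ A) * X.t) := by
  rw [conj_y, y]
  have h1 := X.d_mul_conj_d
  have h2 := X.s_mul_s
  have h3 := X.t_mul_t
  have h4 := X.s_mul_t
  have h5 := X.t_mul_d
  have h6 := X.t_mul_conj_d
  push_cast at h1 h2 h3 h4 h5 h6 ⊢
  linear_combination (1 - X.s) ^ 2 * h1 + ((k : MonoidAlgebra ℤ A) ^ 2 + X.t - X.s) * h2 +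
    (2 * (k : MonoidAlgebra ℤ A) * (2 * k - 1) + (2 * (k : MonoidAlgebra ℤ A) - 1) ^ 2) * h3 -
    ((k : MonoidAlgebra ℤ A) ^ 2 - k + 1 - 2) * h2 +
    (((k : MonoidAlgebra ℤ A) ^ 2 - k + 1 - 2) - 2 * (k : MonoidAlgebra ℤ A) * (2 * k - 1)
      - 2 * (2 * (k : MonoidAlgebra ℤ A) - 1) * ((k : MonoidAlgebra ℤ A) - 1) ^ 2) * h4 +
    (2 * (k : MonoidAlgebra ℤ A) - 1) * (1 - X.s) * (h5 + h6)

theorem t_mul_y : X.t * X.y = (((k : ℤ) ^ 4 : ℤ) : MonoidAlgebra ℤ A) * X.t := by
  rw [y]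
  have h3 := X.t_mul_t
  have h4 := X.s_mul_t
  have h5 := X.t_mul_d
  push_cast at h3 h4 h5 ⊢
  linear_combination (1 - X.s) * h5 - ((k : MonoidAlgebra ℤ A) - 1) ^ 2 * h4 +
    (2 * (k : MonoidAlgebra ℤ A) - 1) * h3

theorem sum_y : ∑ g, X.y.coeff g = (k : ℤ) ^ 4 := by
  have h1 := X.t_mul_y
  rw [t_mul, ← zsmul_eq_mul] at h1
  have h2 := congrArg (fun z => z.coeff 1) h1
  simp only [coeff_smul_apply, coeff_t, smul_eq_mul, mul_one] at h2
  exact h2

theorem sum_y_sq : ∑ g, X.y.coeff g ^ 2 = 3 * (k : ℤ) ^ 4 - 2 * (k : ℤ) ^ 3 := by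
  rw [← mul_conj_coeff_one, X.y_mul_conj_y, ← zsmul_eq_mul, coeff_smul_apply, coeff_add,
    coeff_add, ← zsmul_eq_mul, ← zsmul_eq_mul]
  simp only [Finsupp.coe_add, Pi.add_apply, coeff_smul_apply, coeff_t, coeff_s]
  classical
  have h2 : ∀ i, (X.h i).coeff 1 = 1 := by
    intro i
    rw [X.coeff_h, if_pos (X.H i).one_mem]
  simp only [h2, Finset.sum_const, Finset.card_univ, X.hI, coeff_one_one, smul_eq_mul,
    nsmul_eq_mul]
  push_cast
  ring

theorem coeff_d_mul_h (i : I) (g : A) :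
    0 ≤ (X.d * X.h i).coeff g ∧ (X.d * X.h i).coeff g ≤ 1 := by
  classical
  rw [d, coeff_el_mul]
  simp only [X.coeff_h, Finset.sum_boole]
  refine ⟨by positivity, ?_⟩
  norm_cast
  rw [Finset.card_le_one]
  intro a ha b hb
  rw [Finset.mem_filter] at ha hb
  by_contra hab
  have h1 : b * a⁻¹ ∈ X.H i := by
    have h2 := (X.H i).mul_mem ha.2 ((X.H i).inv_mem hb.2)
    have h3 : a⁻¹ * g * (b⁻¹ * g)⁻¹ = b * a⁻¹ := by
      rw [mul_inv, inv_inv, mul_comm b g⁻¹, ← mul_assoc, mul_assoc a⁻¹ g g⁻¹, mul_inv_cancel,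
        mul_one, mul_comm]
    rwa [h3] at h2
  refine X.hin i (b * a⁻¹) h1 ?_ a ha.1 ?_
  · intro h4
    apply hab
    exact (mul_inv_eq_one.1 h4).symm
  · simpa using hb.1

theorem coeff_d_mul_h_self (i : I) (g : A) (hg : g ∈ X.D) :
    (X.d * X.h i).coeff g = 1 := by
  classical
  apply le_antisymm (X.coeff_d_mul_h i g).2
  rw [d, coeff_el_mul]
  simp only [X.coeff_h, Finset.sum_boole]
  norm_cast
  rw [Nat.one_le_iff_ne_zero, ← Nat.pos_iff_ne_zero, Finset.card_pos]
  exact ⟨g, by simp [hg, (X.H i).one_mem]⟩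

theorem neg_one_le_y (g : A) : -1 ≤ X.y.coeff g := by
  classical
  have h1 : X.y = X.d - ∑ i, X.d * X.h i + ((2 * k - 1) : ℤ) • X.t := by
    rw [y, mul_sub, mul_one, s, Finset.mul_sum, zsmul_eq_mul]
  rw [h1]
  simp only [coeff_add, coeff_sub, coeff_sum, Finsupp.coe_add, Finsupp.coe_sub, Pi.add_apply,
    Pi.sub_apply, Finsupp.finsetSum_apply, coeff_smul_apply, coeff_t, smul_eq_mul, mul_one]
  have h2 : ∑ i, (X.d * X.h i).coeff g ≤ 2 * (k : ℤ) := by
    calc ∑ i, (X.d * X.h i).coeff g ≤ ∑ _i : I, (1 : ℤ) :=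
          Finset.sum_le_sum fun i _ => (X.coeff_d_mul_h i g).2
      _ = 2 * (k : ℤ) := by simp [X.hI]
  have h3 : 0 ≤ X.d.coeff g := by
    rw [d, coeff_el]; split_ifs <;> norm_num
  linarith

include X in
/-- A self-conjugate prime power dividing `k` is at most `2`. -/
theorem key1 (r : ℕ) [hr : Fact r.Prime] (j : ℕ) (hj0 : j ≠ 0)
    (hj : ∀ g : A, g ^ (r ^ j) = g⁻¹) (b : ℕ) (hb : b ≠ 0) (hrk : r ^ b ∣ k) : r ^ b ≤ 2 := by
  have hk := X.hk
  have h1 : ∀ g, ((r : ℤ) ^ (2 * b)) ∣ (X.y * conj ℤ X.y).coeff g := by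
    intro g
    rw [X.y_mul_conj_y, ← zsmul_eq_mul, coeff_smul_apply, smul_eq_mul]
    apply Dvd.dvd.mul_right
    rw [pow_mul', ]
    apply pow_dvd_pow_of_dvd
    exact_mod_cast hrk
  have h2 := dvd_of_dvd_mul_conj r j hj0 hj b X.y h1
  have h3 : (2 : ℤ) ≤ (r : ℤ) ^ b := by
    have : 2 ≤ r ^ b := by
      calc 2 ≤ r := hr.out.two_le
        _ ≤ r ^ b := Nat.le_self_pow hb r
    exact_mod_cast this
  have h4 : ∀ g, (r : ℤ) ^ b * X.y.coeff g ≤ X.y.coeff g ^ 2 := by
    intro g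
    obtain ⟨c, hc⟩ := h2 g
    have h5 := X.neg_one_le_y g
    rw [hc] at h5 ⊢
    have h6 : 0 ≤ c := by
      by_contra h7
      push Not at h7
      nlinarith
    have h7 : c ≤ c ^ 2 := by
      rcases h6.lt_or_eq with h8 | h8
      · nlinarith
      · rw [← h8]; norm_num
    nlinarith [mul_nonneg (mul_nonneg (by linarith : (0 : ℤ) ≤ (r : ℤ) ^ b)
      (by linarith : (0 : ℤ) ≤ (r : ℤ) ^ b)) (by linarith : (0 : ℤ) ≤ c ^ 2 - c)]
  have h5 : (r : ℤ) ^ b * (k : ℤ) ^ 4 ≤ 3 * (k : ℤ) ^ 4 - 2 * (k : ℤ) ^ 3 := by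
    rw [← X.sum_y_sq, ← X.sum_y, Finset.mul_sum]
    exact Finset.sum_le_sum fun g _ => h4 g
  have h6 : (r : ℤ) ^ b < 3 := by
    by_contra h7
    push Not at h7
    have hk' : (0 : ℤ) < k := by exact_mod_cast (by omega : 0 < k)
    have h8 : (0 : ℤ) < (k : ℤ) ^ 3 := by positivity
    have h9 : (0 : ℤ) < (k : ℤ) ^ 4 := by positivity
    nlinarith
  have h7 : r ^ b < 3 := by exact_mod_cast h6
  omega

include X in
/-- No self-conjugate prime divides `k - 1`. -/
theorem key2 (r : ℕ) [hr : Fact r.Prime] (j : ℕ) (hj0 : j ≠ 0)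
    (hj : ∀ g : A, g ^ (r ^ j) = g⁻¹) (hrk : (r : ℤ) ∣ (k : ℤ) - 1) : False := by
  have hk := X.hk
  obtain ⟨i⟩ : Nonempty I := by
    rw [← Fintype.card_pos_iff, X.hI]; omega
  obtain ⟨d0, hd0⟩ : X.D.Nonempty := by
    rw [← Finset.card_pos, X.hD]
    have : 0 < k - 1 := by omega
    positivity
  have h1 : (X.d * X.h i) * conj ℤ (X.d * X.h i) =
      ((((k : ℤ) ^ 2 - k + 1) * (k - 1) : ℤ)) •
        (X.h i + (((k : ℤ) - 2 : ℤ) : MonoidAlgebra ℤ A) * X.t) := by
    rw [map_mul, X.conj_h, zsmul_eq_mul]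
    have h1 := X.d_mul_conj_d
    have h2 := X.h_mul_h i
    have h3 := X.t_mul_h i
    have h4 := X.s_mul_h i
    push_cast at h1 h2 h3 h4 ⊢
    linear_combination (X.h i * X.h i) * h1 + ((k : MonoidAlgebra ℤ A) ^ 2 + X.t - X.s) * h2 +
      ((k : MonoidAlgebra ℤ A) ^ 2 - k + 1) * h3 - ((k : MonoidAlgebra ℤ A) ^ 2 - k + 1) * h4
  have h2 : red r (X.d * X.h i) = 0 := by
    apply eq_zero_of_mul_conj r j hj0 hj
    rw [← red_conj, ← map_mul]
    apply red_eq_zero_of_dvd
    intro g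
    rw [h1, coeff_smul_apply, smul_eq_mul]
    apply Dvd.dvd.mul_right
    exact Dvd.dvd.mul_left hrk _
  have h3 := dvd_of_red_eq_zero r _ h2 d0
  rw [X.coeff_d_mul_h_self i d0 hd0] at h3
  have h4 : r ∣ 1 := by exact_mod_cast h3
  exact hr.out.one_lt.ne' (Nat.dvd_one.1 h4)

end DData

end Pool.Agent.P8H40.GR
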