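import Mathlib

/-!
# Number theory for type (h)
-/

set_option autoImplicit false

namespace Pool.Agent.P8H40.NT

/-- For an odd prime power modulus, an element whose order is even has a power equal to `-1`. -/
theorem odd_order_or_neg_one (p : ℕ) (hp : p.Prime) (hp2 : p ≠ 2) (m : ℕ) (r : ℕ)
    (hr : r.Coprime p) :
    (∃ o : ℕ, Odd o ∧ r ^ o ≡ 1 [MOD p ^ m]) ∨ (∃ j : ℕ, j ≠ 0 ∧ p ^ m ∣ r ^ j + 1) := by
  have hNpos : 0 < p ^ m := pow_pos hp.pos _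
  haveI : NeZero (p ^ m) := ⟨hNpos.ne'⟩
  set u : (ZMod (p ^ m))ˣ := ZMod.unitOfCoprime r (Nat.Coprime.pow_right m hr) with hu
  have hu1 : ∀ n : ℕ, u ^ n = 1 ↔ r ^ n ≡ 1 [MOD p ^ m] := by
    intro n
    rw [← ZMod.natCast_eq_natCast_iff]
    rw [Units.ext_iff]
    simp [hu]
  rcases Nat.even_or_odd (orderOf u) with he | ho
  · right
    obtain ⟨c, hc⟩ := he
    have hpos : 0 < orderOf u := orderOf_pos u
    have hc0 : c ≠ 0 := by omega
    refine ⟨c, hc0, ?_⟩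
    have h1 : r ^ (orderOf u) ≡ 1 [MOD p ^ m] := (hu1 _).1 (pow_orderOf_eq_one u)
    have h2 : ((p ^ m : ℕ) : ℤ) ∣ ((r : ℤ) ^ c - 1) * ((r : ℤ) ^ c + 1) := by
      have h3 := (Nat.modEq_iff_dvd.1 h1.symm)
      rw [hc] at h3
      push_cast at h3 ⊢
      convert h3 using 1
      ring
    have hpm : Prime ((p : ℕ) : ℤ) := Nat.prime_iff_prime_int.1 hp
    by_cases hd : ((p : ℕ) : ℤ) ∣ (r : ℤ) ^ c + 1
    · have hd2 : ¬ ((p : ℕ) : ℤ) ∣ (r : ℤ) ^ c - 1 := by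
        intro hd2
        have h3 : ((p : ℕ) : ℤ) ∣ 2 := by
          have := dvd_sub hd hd2
          ring_nf at this
          exact this
        have h4 : p ∣ 2 := by exact_mod_cast h3
        exact hp2 ((Nat.prime_dvd_prime_iff_eq hp Nat.prime_two).1 h4)
      have h5 : ((p ^ m : ℕ) : ℤ) ∣ (r : ℤ) ^ c + 1 := by
        push_cast at h2 ⊢
        have hcop : IsCoprime ((p : ℤ) ^ m) ((r : ℤ) ^ c - 1) :=
          IsCoprime.pow_left ((Prime.coprime_iff_not_dvd hpm).2 hd2)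
        exact hcop.dvd_of_dvd_mul_left h2
      exact_mod_cast h5
    · exfalso
      have h5 : ((p ^ m : ℕ) : ℤ) ∣ (r : ℤ) ^ c - 1 := by
        push_cast at h2 ⊢
        have hcop : IsCoprime ((p : ℤ) ^ m) ((r : ℤ) ^ c + 1) :=
          IsCoprime.pow_left ((Prime.coprime_iff_not_dvd hpm).2 hd)
        exact hcop.dvd_of_dvd_mul_right h2
      have h6 : r ^ c ≡ 1 [MOD p ^ m] := by
        apply Nat.ModEq.symm
        rw [Nat.modEq_iff_dvd]
        push_cast at h5 ⊢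
        exact h5
      have h7 := orderOf_dvd_of_pow_eq_one ((hu1 c).2 h6)
      have h8 := Nat.le_of_dvd (Nat.pos_of_ne_zero hc0) h7
      omega
  · left
    exact ⟨orderOf u, ho, (hu1 _).1 (pow_orderOf_eq_one u)⟩

/-- If every prime divisor of `k` has odd order modulo `N`, so has `k`. -/
theorem odd_order_of_primes (N : ℕ) (k : ℕ) (hk : k ≠ 0)
    (h : ∀ r : ℕ, r.Prime → r ∣ k → ∃ o : ℕ, Odd o ∧ r ^ o ≡ 1 [MOD N]) :
    ∃ o : ℕ, Odd o ∧ k ^ o ≡ 1 [MOD N] := by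
  induction k using Nat.recOnMul with
  | zero => exact absurd rfl hk
  | one => exact ⟨1, odd_one, by simp [Nat.ModEq]⟩
  | prime p hp => exact h p hp dvd_rfl
  | mul a b ha hb =>
    have ha0 : a ≠ 0 := by rintro rfl; simp at hk
    have hb0 : b ≠ 0 := by rintro rfl; simp at hk
    obtain ⟨o1, ho1, h1⟩ := ha ha0 (fun r hr hd => h r hr (Dvd.dvd.mul_right hd _))
    obtain ⟨o2, ho2, h2⟩ := hb hb0 (fun r hr hd => h r hr (Dvd.dvd.mul_left hd _))
    refine ⟨o1 * o2, ho1.mul ho2, ?_⟩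
    have h3 : (a ^ o1) ^ o2 ≡ 1 ^ o2 [MOD N] := h1.pow o2
    have h4 : (b ^ o2) ^ o1 ≡ 1 ^ o1 [MOD N] := h2.pow o1
    have h5 : (a * b) ^ (o1 * o2) = (a ^ o1) ^ o2 * (b ^ o2) ^ o1 := by
      rw [mul_pow, ← pow_mul, ← pow_mul, mul_comm o2 o1]
    rw [h5]
    simpa using h3.mul h4

theorem not_odd_order_three (p : ℕ) (hp : p.Prime) (hp4 : p % 4 = 3) (hp3 : p % 3 = 1) (m : ℕ)
    (hm : m ≠ 0) (o : ℕ) (ho : Odd o) (h : 3 ^ o ≡ 1 [MOD p ^ m]) : False := by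
  haveI : Fact p.Prime := ⟨hp⟩
  haveI : Fact (Nat.Prime 3) := ⟨Nat.prime_three⟩
  have h1 : 3 ^ o ≡ 1 [MOD p] := h.of_dvd (dvd_pow_self p hm)
  have hne : p ≠ 3 := by rintro rfl; norm_num at hp3
  have h2 := ZMod.exists_sq_eq_prime_iff_of_mod_four_eq_three (p := p) (q := 3) hp4
    (by norm_num) hne
  have h3 : IsSquare ((p : ℕ) : ZMod 3) := by
    have : ((p : ℕ) : ZMod 3) = 1 := by
      have := (ZMod.natCast_eq_natCast_iff p 1 3).2 (by rw [Nat.ModEq, hp3])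
      simpa using this
    rw [this]; exact IsSquare.one
  have h4 : IsSquare ((3 : ℕ) : ZMod p) := by
    obtain ⟨c, hc⟩ := ho
    have h5 : ((3 : ℕ) : ZMod p) ^ o = 1 := by
      have := (ZMod.natCast_eq_natCast_iff (3 ^ o) 1 p).2 h1
      push_cast at this ⊢
      exact this
    refine ⟨((3 : ℕ) : ZMod p) ^ (c + 1), ?_⟩
    have h6 : ((3 : ℕ) : ZMod p) ^ (c + 1) * ((3 : ℕ) : ZMod p) ^ (c + 1) =
      ((3 : ℕ) : ZMod p) ^ o * ((3 : ℕ) : ZMod p) := by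
      rw [hc]; ring
    rw [h6, h5, one_mul]
  exact (h2.1 h4) h3

end Pool.Agent.P8H40.NT
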