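import Mathlib
import Pool.Agent.P8H40.DiffSet
import Pool.Agent.P8H40.NumThy

/-!
# The data of a type (h) group are contradictory
-/

set_option autoImplicit false

namespace Pool.Agent.P8H40.GR

variable {A : Type*} [CommGroup A] [Fintype A] [DecidableEq A]
variable {I : Type*} [Fintype I] [DecidableEq I] {k : ℕ}

namespace DData

theorem primary_bound (X : DData A I k) (p : ℕ) (hp : p.Prime) (a m : ℕ) (ha : a ≠ 0)
    (hq : k ^ 2 - k + 1 = p ^ a * m) (hm : ¬ p ∣ m) : 2 * k ≤ p ^ a + 1 := by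
  classical
  haveI : Fact p.Prime := ⟨hp⟩
  set T : Subgroup A := (powMonoidHom (p ^ a) : A →* A).ker with hT
  have hTmem : ∀ g, g ∈ T ↔ g ^ (p ^ a) = 1 := by
    intro g; rw [hT, MonoidHom.mem_ker]; rfl
  -- subgroups of order `p ^ a`
  have hK : ∀ i, ∃ K : Subgroup A, Nat.card K = p ^ a ∧ K ≤ X.H i := by
    intro i
    have h1 : p ^ a ∣ Nat.card (X.H i) := by
      rw [X.hH, hq]; exact dvd_mul_right _ _
    obtain ⟨K, hK⟩ := Sylow.exists_subgroup_card_pow_prime p h1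
    refine ⟨K.map (X.H i).subtype, ?_, ?_⟩
    · rw [← hK]
      exact (Nat.card_congr (K.equivMapOfInjective _ (X.H i).subtype_injective).toEquiv).symm
    · exact Subgroup.map_subtype_le K
  choose K hKc hKH using hK
  have hKT : ∀ i, K i ≤ T := by
    intro i g hg
    rw [hTmem]
    have h1 : (⟨g, hg⟩ : K i) ^ (Nat.card (K i)) = 1 := pow_card_eq_one'
    rw [hKc] at h1
    have := congrArg (fun z => ((z : K i) : A)) h1
    simpa using this
  -- cardinality of T
  have hTp : IsPGroup p T := by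
    intro g
    refine ⟨a, ?_⟩
    have := (hTmem g.1).1 g.2
    ext
    simpa using this
  obtain ⟨t, ht⟩ := IsPGroup.iff_card.1 hTp
  have hta : t ≤ 2 * a := by
    have h1 : p ^ t ∣ (p ^ a * m) ^ 2 := by
      rw [← hq, ← X.hA, ← ht]
      exact Subgroup.card_subgroup_dvd_card T
    have h2 : (p ^ a * m) ^ 2 = p ^ (2 * a) * m ^ 2 := by ring
    rw [h2] at h1
    by_contra h3
    push Not at h3
    have h4 : p ^ (2 * a + 1) ∣ p ^ (2 * a) * m ^ 2 := dvd_trans (pow_dvd_pow p h3) h1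
    rw [pow_succ] at h4
    have h5 := (Nat.mul_dvd_mul_iff_left (pow_pos hp.pos _)).1 h4
    exact hm (hp.dvd_of_dvd_pow h5)
  have hTc : Nat.card T ≤ p ^ (2 * a) := by
    rw [ht]; exact Nat.pow_le_pow_right hp.pos hta
  -- counting
  let F : I → Finset A := fun i => (Finset.univ.filter (· ∈ K i)).erase 1
  have hF : ∀ i, (F i).card = p ^ a - 1 := by
    intro i
    have h1 : (1 : A) ∈ Finset.univ.filter (· ∈ K i) := by simp [(K i).one_mem]
    rw [Finset.card_erase_of_mem h1]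
    have h2 := hKc i
    rw [Nat.card_eq_fintype_card, Fintype.card_subtype] at h2
    rw [h2]
  have hdisj : (Set.univ : Set I).PairwiseDisjoint F := by
    intro i _ j _ hij
    rw [Function.onFun, Finset.disjoint_left]
    intro g hgi hgj
    simp only [F, Finset.mem_erase, Finset.mem_filter, Finset.mem_univ, true_and] at hgi hgj
    exact hgi.1 (Subgroup.disjoint_def.1 (X.hdis i j hij) (hKH i hgi.2) (hKH j hgj.2))
  have hcard : (Finset.univ.biUnion F).card = 2 * k * (p ^ a - 1) := by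
    rw [Finset.card_biUnion]
    · simp only [hF, Finset.sum_const, Finset.card_univ, X.hI, smul_eq_mul]
    · intro i _ j _ hij
      exact hdisj (Set.mem_univ i) (Set.mem_univ j) hij
  have hsub : Finset.univ.biUnion F ⊆ (Finset.univ.filter (· ∈ T)).erase 1 := by
    intro g hg
    rw [Finset.mem_biUnion] at hg
    obtain ⟨i, _, hg⟩ := hg
    simp only [F, Finset.mem_erase, Finset.mem_filter, Finset.mem_univ, true_and] at hg ⊢
    exact ⟨hg.1, hKT i hg.2⟩
  have h1 := Finset.card_le_card hsub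
  have h1T : (1 : A) ∈ Finset.univ.filter (· ∈ T) := by simp [T.one_mem]
  rw [hcard, Finset.card_erase_of_mem h1T] at h1
  have h2 : (Finset.univ.filter (· ∈ T)).card = Nat.card T := by
    rw [Nat.card_eq_fintype_card, Fintype.card_subtype]
  rw [h2] at h1
  have ha1 : 1 ≤ p ^ a := Nat.one_le_pow _ _ hp.pos
  have ha2 : p ≤ p ^ a := Nat.le_self_pow ha p
  have hp2 := hp.two_le
  have h3 : 2 * k * (p ^ a - 1) ≤ p ^ (2 * a) - 1 := le_trans h1 (Nat.sub_le_sub_right hTc 1)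
  have h4 : p ^ (2 * a) - 1 = (p ^ a + 1) * (p ^ a - 1) := by
    rw [pow_mul']
    have := Nat.sq_sub_sq (p ^ a) 1
    rw [one_pow] at this
    exact this
  rw [h4] at h3
  exact Nat.le_of_mul_le_mul_right h3 (by omega)


theorem prime_power (X : DData A I k) :
    ∃ p a : ℕ, p.Prime ∧ a ≠ 0 ∧ k ^ 2 - k + 1 = p ^ a := by
  have hk := X.hk
  have hkk : k ≤ k ^ 2 := by nlinarith
  set q := k ^ 2 - k + 1 with hq
  have hq2 : q ≠ 1 := by
    have : 3 * k ≤ k ^ 2 := by nlinarith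
    omega
  have hq0 : q ≠ 0 := by omega
  obtain ⟨p, hp, hpq⟩ := Nat.exists_prime_and_dvd hq2
  obtain ⟨a, m, hm, hqm⟩ := Nat.exists_eq_pow_mul_and_not_dvd hq0 p hp.one_lt.ne'
  have ha : a ≠ 0 := by
    rintro rfl
    rw [pow_zero, one_mul] at hqm
    exact hm (hqm ▸ hpq)
  by_cases hm1 : m = 1
  · exact ⟨p, a, hp, ha, by rw [hqm, hm1, mul_one]⟩
  exfalso
  obtain ⟨p', hp', hpm⟩ := Nat.exists_prime_and_dvd hm1
  have hm0 : m ≠ 0 := by
    rintro rfl; exact hm (dvd_zero _)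
  obtain ⟨b, m', hm', hmm⟩ := Nat.exists_eq_pow_mul_and_not_dvd hm0 p' hp'.one_lt.ne'
  have hb : b ≠ 0 := by
    rintro rfl
    rw [pow_zero, one_mul] at hmm
    exact hm' (hmm ▸ hpm)
  have hpp : p' ≠ p := by
    rintro rfl
    exact hm hpm
  have h1 := X.primary_bound p hp a m ha hqm hm
  have h2 := X.primary_bound p' hp' b (p ^ a * m') hb (by rw [← hq, hqm, hmm]; ring) (by
    intro h3
    rcases hp'.dvd_mul.1 h3 with h4 | h4
    · exact hpp ((Nat.prime_dvd_prime_iff_eq hp' hp).1 (hp'.dvd_of_dvd_pow h4))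
    · exact hm' h4)
  have hm'0 : 1 ≤ m' := by
    rw [Nat.one_le_iff_ne_zero]; rintro rfl
    exact hm' (dvd_zero _)
  have h3 : q = p ^ a * p' ^ b * m' := by rw [hqm, hmm]; ring
  have h4 : p ^ a * p' ^ b ≤ q := by
    rw [h3]; exact Nat.le_mul_of_pos_right _ hm'0
  have h5 : (2 * k - 1) * (2 * k - 1) ≤ p ^ a * p' ^ b :=
    Nat.mul_le_mul (by omega) (by omega)
  have h6 : k * k ≤ (2 * k - 1) * (2 * k - 1) := Nat.mul_le_mul (by omega) (by omega)
  have h7 : q < k * k := by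
    have : k ^ 2 = k * k := sq k
    have : 3 * k ≤ k * k := by nlinarith
    omega
  omega

/-- The data of a type (h) group do not exist. -/
theorem false_of_data (X : DData A I k) : False := by
  have hk := X.hk
  have hkk : 3 * k ≤ k ^ 2 := by nlinarith
  obtain ⟨p, a, hp, ha, hq⟩ := X.prime_power
  have hp2 : p ≠ 2 := by
    rintro rfl
    have h1 : 2 ∣ k ^ 2 - k + 1 := by rw [hq]; exact dvd_pow_self 2 ha
    have h2 : 2 ∣ k ^ 2 - k := by
      have : k ^ 2 - k = k * (k - 1) := by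
        rw [sq, Nat.mul_sub, mul_one]
      rw [this]
      exact (Nat.even_mul_pred_self k).two_dvd
    omega
  -- `k ^ 3 = -1` modulo `p`
  have hk3 : (k + 1) * p ^ a = k ^ 3 + 1 := by
    rw [← hq]
    have : k ≤ k ^ 2 := by omega
    zify [this]
    ring
  have hexp : ∀ g : A, g ^ (p ^ (2 * a)) = 1 := by
    intro g
    have h1 : g ^ (Nat.card A) = 1 := pow_card_eq_one'
    rw [X.hA, hq] at h1
    rw [pow_mul', ]
    exact h1
  have hself : ∀ r j : ℕ, p ^ (2 * a) ∣ r ^ j + 1 → ∀ g : A, g ^ (r ^ j) = g⁻¹ := by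
    intro r j hj g
    obtain ⟨c, hc⟩ := hj
    have h1 : g ^ (r ^ j + 1) = 1 := by
      rw [hc, pow_mul, hexp, one_pow]
    rw [pow_succ] at h1
    exact eq_inv_of_mul_eq_one_left h1
  have hpk : ¬ p ∣ k := by
    intro h1
    have h2 : p ∣ k ^ 3 + 1 := by
      rw [← hk3]; exact Dvd.dvd.mul_left (dvd_pow_self p ha) _
    have h3 : p ∣ k ^ 3 := Dvd.dvd.trans h1 (dvd_pow_self k (by norm_num))
    have h4 := (Nat.dvd_add_right h3).1 h2
    exact hp.one_lt.ne' (Nat.dvd_one.1 h4)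
  -- some prime divisor of `k` is self-conjugate
  have hex : ∃ r : ℕ, r.Prime ∧ r ∣ k ∧ ∃ j : ℕ, j ≠ 0 ∧ p ^ (2 * a) ∣ r ^ j + 1 := by
    by_contra hcon
    push Not at hcon
    have h1 : ∀ r : ℕ, r.Prime → r ∣ k → ∃ o : ℕ, Odd o ∧ r ^ o ≡ 1 [MOD p ^ (2 * a)] := by
      intro r hr hrk
      have hrp : r.Coprime p := by
        rw [Nat.coprime_primes hr hp]
        rintro rfl
        exact hpk hrk
      rcases NT.odd_order_or_neg_one p hp hp2 (2 * a) r hrp with h2 | ⟨j, hj, h2⟩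
      · exact h2
      · exact absurd h2 (hcon r hr hrk j hj)
    obtain ⟨o, ho, h2⟩ := NT.odd_order_of_primes (p ^ (2 * a)) k (by omega) h1
    have h3 : k ^ o ≡ 1 [MOD p] := h2.of_dvd (dvd_pow_self p (by omega))
    have h4 : ((k : ℕ) : ZMod p) ^ o = 1 := by
      have := (ZMod.natCast_eq_natCast_iff (k ^ o) 1 p).2 h3
      push_cast at this
      exact this
    have h5 : ((k : ℕ) : ZMod p) ^ 3 = -1 := by
      have h6 : ((k ^ 3 + 1 : ℕ) : ZMod p) = 0 := by
        rw [ZMod.natCast_eq_zero_iff, ← hk3]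
        exact Dvd.dvd.mul_left (dvd_pow_self p ha) _
      push_cast at h6
      exact eq_neg_of_add_eq_zero_left h6
    have h6 : (1 : ZMod p) = -1 := by
      calc (1 : ZMod p) = (((k : ℕ) : ZMod p) ^ o) ^ 3 := by rw [h4, one_pow]
        _ = (((k : ℕ) : ZMod p) ^ 3) ^ o := by rw [← pow_mul, ← pow_mul, mul_comm]
        _ = -1 := by rw [h5, ho.neg_one_pow]
    have h7 : ((2 : ℕ) : ZMod p) = 0 := by
      push_cast
      linear_combination h6
    rw [ZMod.natCast_eq_zero_iff] at h7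
    exact hp2 ((Nat.prime_dvd_prime_iff_eq hp Nat.prime_two).1 h7)
  obtain ⟨r, hr, hrk, j, hj0, hj⟩ := hex
  haveI : Fact r.Prime := ⟨hr⟩
  have h1 := X.key1 r j hj0 (hself r j hj) 1 one_ne_zero (by simpa using hrk)
  have hr2 : r = 2 := by
    have := hr.two_le
    rw [pow_one] at h1
    omega
  subst hr2
  have h4 : ¬ 4 ∣ k := by
    intro h4
    have := X.key1 2 j hj0 (hself 2 j hj) 2 two_ne_zero (by simpa using h4)
    norm_num at this
  have hk4 : k % 4 = 2 := by omega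
  have hq4 : p ^ a % 4 = 3 := by
    obtain ⟨t, ht⟩ : ∃ t, k = 4 * t + 2 := ⟨k / 4, by omega⟩
    rw [← hq, ht]
    have h5 : (4 * t + 2) ^ 2 - (4 * t + 2) + 1 = 4 * (4 * t ^ 2 + 3 * t) + 3 := by
      have : (4 * t + 2) ^ 2 = 4 * (4 * t ^ 2 + 3 * t) + 2 + (4 * t + 2) := by ring
      omega
    rw [h5]
    omega
  -- `a` is odd and `p = 3` modulo `4`
  have hpodd : p % 2 = 1 := by
    rcases hp.eq_two_or_odd with h5 | h5
    · exact absurd h5 hp2
    · exact h5
  have hp4 : p % 4 = 3 := by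
    by_contra h5
    have h6 : p % 4 = 1 := by omega
    have h7 : p ^ a % 4 = 1 := by
      norm_num [Nat.pow_mod, h6]
    omega
  have haodd : Odd a := by
    by_contra h5
    rw [Nat.not_odd_iff_even] at h5
    obtain ⟨c, hc⟩ := h5
    have h7 : p ^ a % 4 = 1 := by
      rw [hc, ← two_mul, pow_mul, Nat.pow_mod, Nat.pow_mod p 2 4, hp4]
      norm_num
    omega
  have hk3mod : k % 3 ≠ 2 := by
    intro h5
    obtain ⟨t, ht⟩ : ∃ t, k = 3 * t + 2 := ⟨k / 3, by omega⟩
    have h6 : k ^ 2 - k + 1 = 3 * (3 * (t ^ 2 + t) + 1) := by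
      rw [ht]
      have : (3 * t + 2) ^ 2 = 3 * (3 * (t ^ 2 + t) + 1) - 1 + (3 * t + 2) := by
        have h7 : 3 * (3 * (t ^ 2 + t) + 1) - 1 = 9 * t ^ 2 + 9 * t + 2 := by omega
        rw [h7]; ring
      omega
    have h7 : 3 ∣ p ^ a := by
      rw [← hq, h6]; exact dvd_mul_right _ _
    have h8 : 3 = p := (Nat.prime_dvd_prime_iff_eq Nat.prime_three hp).1
      (Nat.prime_three.dvd_of_dvd_pow h7)
    have h9 : ¬ 9 ∣ p ^ a := by
      rw [← hq, h6]; omega
    rw [← h8] at h9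
    have h10 : a = 1 := by
      by_contra h11
      apply h9
      exact pow_dvd_pow 3 (by omega : 2 ≤ a)
    rw [h10, ← h8] at hq
    omega
  have hq3 : p ^ a % 3 = 1 := by
    rw [← hq]
    obtain ⟨t, ht⟩ : ∃ t, k = 3 * t ∨ k = 3 * t + 1 := ⟨k / 3, by omega⟩
    rcases ht with ht | ht
    · have h6 : k ^ 2 = 3 * (3 * t ^ 2) := by rw [ht]; ring
      omega
    · have h6 : k ^ 2 = 3 * (3 * t ^ 2 + 2 * t) + 1 := by rw [ht]; ring
      omega
  have hp3 : p % 3 = 1 := by
    by_contra h5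
    have h6 : p % 3 = 0 ∨ p % 3 = 2 := by omega
    obtain ⟨c, hc⟩ := haodd
    rcases h6 with h6 | h6
    · have : p ^ a % 3 = 0 := by
        rw [Nat.pow_mod, h6, zero_pow ha]; rfl
      omega
    · have : p ^ a % 3 = 2 := by
        rw [hc, pow_succ, pow_mul, Nat.mul_mod, Nat.pow_mod (p ^ 2) c 3, Nat.pow_mod p 2 3, h6]
        norm_num
      omega
  -- three is self-conjugate
  have hthree : ∃ j : ℕ, j ≠ 0 ∧ p ^ (2 * a) ∣ 3 ^ j + 1 := by
    have hcop : Nat.Coprime 3 p := by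
      rw [Nat.coprime_primes Nat.prime_three hp]
      rintro rfl
      norm_num at hp3
    rcases NT.odd_order_or_neg_one p hp hp2 (2 * a) 3 hcop with ⟨o, ho, h2⟩ | h2
    · exact (NT.not_odd_order_three p hp hp4 hp3 (2 * a) (by omega) o ho h2).elim
    · exact h2
  obtain ⟨j3, hj30, hj3⟩ := hthree
  haveI : Fact (Nat.Prime 3) := ⟨Nat.prime_three⟩
  by_cases h3k : 3 ∣ k
  · have := X.key1 3 j3 hj30 (hself 3 j3 hj3) 1 one_ne_zero (by simpa using h3k)
    norm_num at this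
  · apply X.key2 3 j3 hj30 (hself 3 j3 hj3)
    omega

end DData

end Pool.Agent.P8H40.GR
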