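import Mathlib
import Pool.Agent.P8H40.Cfg
import Pool.Agent.P8H40.NoDData

/-!
# Type (h) does not occur
-/

set_option autoImplicit false

namespace Pool.Agent.P8H40.Geo

open Configuration MulAction

variable {P L G : Type} [Membership P L] [ProjectivePlane P L] [Finite P] [Finite L] [Group G]
  [Finite G] [MulAction G P] [MulAction G L] {k : ℕ} {I : Type} [Fintype I]

namespace Cfg

variable (C : Cfg P L G k I)

open Classical in
theorem nonspecial_inter (l0 : L) (hl0 : ∀ i, l0 ∉ C.T i) :
    (∀ i, Nat.card {p : P // p ∈ C.O i ∧ p ∈ l0} = 1) ∧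
      Nat.card {p : P // p ∈ C.U ∧ p ∈ l0} = (k - 1) ^ 2 := by
  have : Fintype P := Fintype.ofFinite P
  have hk := C.X.hk
  have hq1 := C.X.hq1
  set u := Nat.card {p : P // p ∈ C.U ∧ p ∈ l0} with hu
  set e : I → ℕ := fun i => Nat.card {p : P // p ∈ C.O i ∧ p ∈ l0} with he
  have h1 : ∀ i, k ^ 2 - k + 1 = u + k * e i := fun i => C.line_count i l0 (hl0 i)
  have h2 : ∀ i, e i ≤ 1 := by
    intro i
    by_contra h
    push Not at h
    have h3 : 1 < ({p : P | p ∈ C.O i ∧ p ∈ l0}).ncard := by
      rw [← Nat.card_coe_set_eq]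
      exact h
    obtain ⟨a, b, ha, hb, hab⟩ := (Set.one_lt_ncard_iff (Set.toFinite _)).1 h3
    exact hl0 i ⟨a, ha.1, b, hb.1, hab, ha.2, hb.2⟩
  have h3 : k ^ 2 + 1 = u + ∑ i, e i := by
    have h4 := ProjectivePlane.pointCount_eq P l0
    rw [pointCount, C.X.hord] at h4
    rw [← h4, hu]
    simp only [he]
    simp only [Nat.card_eq_fintype_card, Fintype.card_subtype]
    have h5 : Finset.univ.filter (fun p : P => p ∈ l0) =
      Finset.univ.filter (fun p : P => p ∈ C.U ∧ p ∈ l0) ∪
        Finset.univ.biUnion (fun i : I => Finset.univ.filter (fun p : P => p ∈ C.O i ∧ p ∈ l0)) := by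
      ext p
      simp only [Finset.mem_union, Finset.mem_filter, Finset.mem_univ, true_and,
        Finset.mem_biUnion]
      constructor
      · intro hp
        rcases C.mem_cases p with h | ⟨j, hj⟩
        · exact Or.inl ⟨h, hp⟩
        · exact Or.inr ⟨j, hj, hp⟩
      · rintro (h | ⟨j, h⟩) <;> exact h.2
    rw [h5, Finset.card_union_of_disjoint, Finset.card_biUnion]
    · intro i _ j _ hij
      rw [Function.onFun, Finset.disjoint_left]
      intro p hp hp2
      simp only [Finset.mem_filter, Finset.mem_univ, true_and] at hp hp2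
      exact C.not_O_of_O hij hp.1 hp2.1
    · rw [Finset.disjoint_left]
      intro p hp hp2
      simp only [Finset.mem_filter, Finset.mem_univ, true_and, Finset.mem_biUnion] at hp hp2
      obtain ⟨j, hj⟩ := hp2
      exact C.not_O_of_U hp.1 hj.1
  have h4 : ∀ i, e i = 1 := by
    intro i
    by_contra h
    have h5 : e i = 0 := by have := h2 i; omega
    have h6 : k ^ 2 - k + 1 = u := by
      have := h1 i
      rw [h5, mul_zero, add_zero] at this
      exact this
    have h7 : ∀ j, e j = 0 := by
      intro j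
      have h8 := h1 j
      rw [h6] at h8
      have h9 : k * e j = 0 := by omega
      rcases Nat.mul_eq_zero.1 h9 with h10 | h10
      · omega
      · exact h10
    rw [Finset.sum_eq_zero (fun j _ => h7 j)] at h3
    omega
  refine ⟨h4, ?_⟩
  obtain ⟨i⟩ : Nonempty I := by
    rw [← Fintype.card_pos_iff, C.hI]; omega
  have h5 := h1 i
  rw [h4 i, mul_one] at h5
  obtain ⟨t, rfl⟩ : ∃ t, k = t + 1 := ⟨k - 1, by omega⟩
  rw [Nat.add_sub_cancel]
  have h6 : (t + 1) ^ 2 = t ^ 2 + 2 * t + 1 := by ring
  omega

theorem exists_inter (l0 : L) (hl0 : ∀ i, l0 ∉ C.T i) (i : I) :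
    ∃ p : P, p ∈ C.O i ∧ p ∈ l0 := by
  have h1 := (C.nonspecial_inter l0 hl0).1 i
  have h2 : 0 < Nat.card {p : P // p ∈ C.O i ∧ p ∈ l0} := by omega
  obtain ⟨⟨p, hp⟩⟩ := (Nat.card_pos_iff.1 h2).1
  exact ⟨p, hp⟩

theorem inter_unique (l0 : L) (hl0 : ∀ i, l0 ∉ C.T i) (i : I) (a b : P) (ha : a ∈ C.O i)
    (hb : b ∈ C.O i) (hal : a ∈ l0) (hbl : b ∈ l0) : a = b := by
  by_contra hab
  exact hl0 i ⟨a, ha, b, hb, hab, hal, hbl⟩

theorem stab_line (l0 : L) (hl0 : ∀ i, l0 ∉ C.T i) (g : G) (hg : g • l0 = l0) : g = 1 := by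
  have hk := C.X.hk
  have h1 : ∀ i, g ∈ C.H i := by
    intro i
    obtain ⟨p, hp, hpl⟩ := C.exists_inter l0 hl0 i
    apply C.mem_H_of_smul hp
    apply C.inter_unique l0 hl0 i _ _ (C.smul_mem_O g hp) hp _ hpl
    have := (C.X.hinc g p l0).1 hpl
    rwa [hg] at this
  obtain ⟨i⟩ : Nonempty I := by
    rw [← Fintype.card_pos_iff, C.hI]; omega
  obtain ⟨j, hj⟩ := Fintype.exists_ne_of_one_lt_card (by rw [C.hI]; omega) i
  exact Subgroup.disjoint_def.1 (C.disjoint_H j i hj) (h1 j) (h1 i)

theorem smul_x0_inj (g h : G) (hgh : g • C.x0 = h • C.x0) : g = h := by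
  have h1 : h⁻¹ * g ∈ stabilizer G C.x0 := by
    rw [mem_stabilizer_iff, mul_smul, hgh, inv_smul_smul]
  rw [C.hx0, Subgroup.mem_bot] at h1
  exact (inv_mul_eq_one.1 h1).symm

open Classical in
include C in
theorem contradiction [DecidableEq I] : False := by
  have : Fintype G := Fintype.ofFinite G
  have hk := C.X.hk
  obtain ⟨l0, hl0⟩ := C.exists_nonspecial
  letI iC : CommGroup G := { (inferInstance : Group G) with mul_comm := C.mul_comm' }
  let D : Finset G := Finset.univ.filter (fun g => g • C.x0 ∈ l0)
  have hmemD : ∀ g, g ∈ D ↔ g • C.x0 ∈ l0 := by intro g; simp [D]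
  have hDcard : D.card = (k - 1) ^ 2 := by
    rw [← (C.nonspecial_inter l0 hl0).2]
    rw [← Fintype.card_subtype, ← Nat.card_eq_fintype_card]
    refine Nat.card_congr (Equiv.ofBijective
      (fun g => (⟨g.1 • C.x0, ⟨g.1, rfl⟩, g.2⟩ : {p : P // p ∈ C.U ∧ p ∈ l0})) ⟨?_, ?_⟩)
    · intro g h hgh
      apply Subtype.ext
      apply C.smul_x0_inj
      simpa using hgh
    · rintro ⟨p, ⟨g, rfl⟩, hp⟩
      exact ⟨⟨g, hp⟩, rfl⟩
  let Y : GR.DData G I k :=
    { D := D
      H := C.H
      hk := hk
      hI := C.hI
      hA := C.X.hG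
      hH := C.hH
      hdis := C.disjoint_H
      hD := hDcard
      hin := by
        intro i g hg hg1 d hd hgd
        rw [hmemD] at hd hgd
        rw [mul_smul] at hgd
        obtain ⟨p, hp, hpl⟩ := C.exists_inter l0 hl0 i
        have h1 : g • p = p := C.mem_H hg hp
        have h2 : p ∈ g • l0 := by
          have := (C.X.hinc g p l0).1 hpl
          rwa [h1] at this
        have h3 : g • d • C.x0 ∈ g • l0 := (C.X.hinc g _ l0).1 hd
        have h4 : g • d • C.x0 ≠ p := by
          intro h
          have h5 : g • d • C.x0 ∈ C.U := C.smul_mem_U g ⟨d, rfl⟩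
          rw [h] at h5
          exact C.not_O_of_U h5 hp
        have h5 : g • l0 = l0 := line_unique h4 h3 h2 hgd hpl
        exact hg1 (C.stab_line l0 hl0 g h5)
      hout := by
        intro g hg
        have hg1 : g ≠ 1 := by
          rintro rfl
          obtain ⟨i⟩ : Nonempty I := by
            rw [← Fintype.card_pos_iff, C.hI]; omega
          exact hg i (C.H i).one_mem
        have hne : l0 ≠ g⁻¹ • l0 := by
          intro h
          apply hg1
          have := C.stab_line l0 hl0 g⁻¹ h.symm
          simpa using this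
        obtain ⟨z, ⟨hz1, hz2⟩, -⟩ := HasPoints.existsUnique_point P L l0 (g⁻¹ • l0) hne
        have hz3 : g • z ∈ l0 := by
          have := (C.X.hinc g z _).1 hz2
          rwa [smul_inv_smul] at this
        have hzU : z ∈ C.U := by
          rcases C.mem_cases z with h | ⟨i, hi⟩
          · exact h
          · exfalso
            apply hg i
            apply C.mem_H_of_smul hi
            exact C.inter_unique l0 hl0 i _ _ (C.smul_mem_O g hi) hi hz3 hz1
        obtain ⟨d, hd⟩ := hzU
        have hd' : d • C.x0 = z := hd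
        rw [Finset.card_eq_one]
        refine ⟨d, ?_⟩
        ext e
        simp only [Finset.mem_filter, Finset.mem_singleton, hmemD]
        constructor
        · rintro ⟨h1, h2⟩
          apply C.smul_x0_inj
          rw [hd']
          have h3 : e • C.x0 ∈ g⁻¹ • l0 := by
            have h4 := (C.X.hinc g⁻¹ _ _).1 h2
            have h5 : g⁻¹ • (g * e) • C.x0 = e • C.x0 := by
              rw [mul_smul, inv_smul_smul]
            rwa [h5] at h4
          exact point_unique hne h1 hz1 h3 hz2
        · rintro rfl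
          refine ⟨by rw [hd']; exact hz1, ?_⟩
          have h5 : (g * e) • C.x0 = g • z := by
            rw [mul_smul, hd']
          rw [h5]; exact hz3 }
  exact Y.false_of_data

end Cfg

open Classical in
theorem TypeH.contradiction (X : TypeH P L G k) : False := by
  obtain ⟨ω₀, hω₀, hω⟩ := X.orbit_structure
  have : Fintype (orbitRel.Quotient G P) := Fintype.ofFinite _
  let C : Cfg P L G k {ω : orbitRel.Quotient G P // ω ≠ ω₀} :=
    { X := X
      x0 := ω₀.out
      hx0 := hω₀
      pt := fun ω => ω.1.out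
      hI := by
        have h1 : Fintype.card (orbitRel.Quotient G P) = 2 * k + 1 := by
          rw [← X.hOrb, Nat.card_eq_fintype_card]
        rw [Fintype.card_subtype_compl, Fintype.card_subtype_eq, h1]
        rfl
      hO := fun ω => (hω ω.1 ω.2).1
      hH := fun ω => (hω ω.1 ω.2).2
      cover := by
        intro p
        have h1 : p ∈ orbit G (Quotient.out (Quotient.mk'' p : orbitRel.Quotient G P)) := by
          have h2 : (Quotient.mk'' (Quotient.out (Quotient.mk'' p : orbitRel.Quotient G P)) :
              orbitRel.Quotient G P) = Quotient.mk'' p := Quotient.out_eq' _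
          have h3 := Quotient.exact' h2
          exact mem_orbit_symm.1 (orbitRel_apply.1 h3)
        by_cases h : (Quotient.mk'' p : orbitRel.Quotient G P) = ω₀
        · left; rw [← h]; exact h1
        · right; exact ⟨⟨_, h⟩, h1⟩
      disj := by
        intro i p hp hpi
        apply i.2
        have h1 : (Quotient.mk'' p : orbitRel.Quotient G P) = ω₀ := by
          rw [← Quotient.out_eq' ω₀]
          exact Quotient.sound' (orbitRel_apply.2 hp)
        have h2 : (Quotient.mk'' p : orbitRel.Quotient G P) = i.1 := by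
          rw [← Quotient.out_eq' i.1]
          exact Quotient.sound' (orbitRel_apply.2 hpi)
        exact h2.symm.trans h1
      disj2 := by
        intro i j p hij hpi hpj
        apply hij
        apply Subtype.ext
        have h1 : (Quotient.mk'' p : orbitRel.Quotient G P) = j.1 := by
          rw [← Quotient.out_eq' j.1]
          exact Quotient.sound' (orbitRel_apply.2 hpj)
        have h2 : (Quotient.mk'' p : orbitRel.Quotient G P) = i.1 := by
          rw [← Quotient.out_eq' i.1]
          exact Quotient.sound' (orbitRel_apply.2 hpi)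
        exact h2.symm.trans h1 }
  exact C.contradiction

end Pool.Agent.P8H40.Geo
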